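import Pool.Agent.H.MP_6a1d6a_ag.K1

/-!
MP_6a1d6a_ag, module M1: Riemann surfaces as smooth real manifolds; the Laplacian in different charts.

* `real_manifold`: the transition maps are complex analytic, so real C^∞ (`isManifold_of_contDiffOn`; `IsManifold.compatible` or
  `contDiffGroupoid`, `contDiffOn` of the transition maps over ℂ, `ContDiffOn.restrict_scalars ℝ`, `ContDiffOn.of_le`).
* `smooth_chart`: f smooth on C (as a real manifold), χ = chartAt ℂ c: f ∘ χ.symm is C^∞ on χ.target (`contMDiffOn_chart_symm` or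
  `contMDiff_iff`; model with corners is the identity).
* `holo_trans`: the transition map τ = χ' ∘ χ.symm is holomorphic on χ.target ∩ χ.symm ⁻¹' χ'.source.
* `lap_trans`: near z, f ∘ χ.symm = (f ∘ χ'.symm) ∘ τ; use `lap_congr` and `lap_comp`.
* `transfer`: τ maps O = χ.target ∩ χ.symm ⁻¹' χ'.source bijectively onto O' = χ'.target ∩ χ'.symm ⁻¹' χ.source, its real
  derivative is multiplication by τ'(z), of determinant |τ'(z)|²; so
  ∫_{O'} G = ∫_O |τ'|² G∘τ (`integral_image_eq_integral_abs_det_fderiv_smul`, O is open so measurable), with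
  G = g(χ'.symm ·) lap (f ∘ χ'.symm), and g(χ'.symm (τ z)) = g (χ.symm z), |τ'|² lap (f ∘ χ'.symm) (τ z) = lap (f ∘ χ.symm) z.
-/

open Set Filter Topology Metric MeasureTheory
open scoped ContDiff Manifold

namespace Pool.Agent.Nef6

variable {C : Type} [TopologicalSpace C] [ChartedSpace ℂ C] [IsManifold 𝓘(ℂ) ω C]

theorem M1_trans (C : Type) [TopologicalSpace C] [ChartedSpace ℂ C] [IsManifold 𝓘(ℂ) ω C]
    (e e' : OpenPartialHomeomorph C ℂ) (he : e ∈ atlas ℂ C) (he' : e' ∈ atlas ℂ C) :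
    ContDiffOn ℂ ω (e' ∘ e.symm) (e.symm ≫ₕ e').source := by
  have h : e.symm ≫ₕ e' ∈ contDiffGroupoid ω 𝓘(ℂ) :=
    StructureGroupoid.compatible (contDiffGroupoid ω 𝓘(ℂ)) he he'
  rw [contDiffGroupoid, mem_groupoid_of_pregroupoid] at h
  have h1 := h.1
  simp only [contDiffPregroupoid, modelWithCornersSelf_coe, modelWithCornersSelf_coe_symm,
    range_id, inter_univ, preimage_id, Function.id_comp, Function.comp_id,
    OpenPartialHomeomorph.coe_trans] at h1
  exact h1

theorem real_manifold (C : Type) [TopologicalSpace C] [ChartedSpace ℂ C] [IsManifold 𝓘(ℂ) ω C] :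
    IsManifold 𝓘(ℝ, ℂ) ∞ C := by
  apply isManifold_of_contDiffOn
  intro e e' he he'
  have h := (M1_trans C e e' he he').restrict_scalars ℝ
  simp only [modelWithCornersSelf_coe, modelWithCornersSelf_coe_symm,
    range_id, inter_univ, preimage_id, Function.id_comp, Function.comp_id,
    OpenPartialHomeomorph.coe_trans]
  exact h.of_le le_top

theorem smooth_chart {f : C → ℝ} (hf : ContMDiff 𝓘(ℝ, ℂ) 𝓘(ℝ, ℝ) ∞ f) (c : C) :
    ContDiffOn ℝ ∞ (fun z => f ((chartAt ℂ c).symm z)) (chartAt ℂ c).target := by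
  have := real_manifold C
  have h := hf.comp_contMDiffOn (contMDiffOn_chart_symm (I := 𝓘(ℝ, ℂ)) (n := ∞) (x := c))
  exact contMDiffOn_iff_contDiffOn.1 h

theorem M1_open (c c' : C) :
    IsOpen ((chartAt ℂ c).target ∩ (chartAt ℂ c).symm ⁻¹' (chartAt ℂ c').source) := by
  have h := ((chartAt ℂ c).symm ≫ₕ (chartAt ℂ c')).open_source
  exact h

theorem holo_trans (c c' : C) :
    DifferentiableOn ℂ (fun z => chartAt ℂ c' ((chartAt ℂ c).symm z))
      ((chartAt ℂ c).target ∩ (chartAt ℂ c).symm ⁻¹' (chartAt ℂ c').source) := by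
  have h := (M1_trans C _ _ (chart_mem_atlas ℂ c) (chart_mem_atlas ℂ c')).differentiableOn
    (by simp)
  exact h

theorem lap_trans {f : C → ℝ} (hf : ContMDiff 𝓘(ℝ, ℂ) 𝓘(ℝ, ℝ) ∞ f) (c c' : C) {z : ℂ}
    (hz : z ∈ (chartAt ℂ c).target ∩ (chartAt ℂ c).symm ⁻¹' (chartAt ℂ c').source) :
    lap (fun z => f ((chartAt ℂ c).symm z)) z =
      ‖deriv (fun z => chartAt ℂ c' ((chartAt ℂ c).symm z)) z‖ ^ 2 *
        lap (fun z => f ((chartAt ℂ c').symm z)) (chartAt ℂ c' ((chartAt ℂ c).symm z)) := by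
  have hτ : chartAt ℂ c' ((chartAt ℂ c).symm z) ∈ (chartAt ℂ c').target :=
    (chartAt ℂ c').map_source hz.2
  have hcd : ContDiffAt ℝ ∞ (fun z => f ((chartAt ℂ c').symm z))
      (chartAt ℂ c' ((chartAt ℂ c).symm z)) :=
    (smooth_chart hf c').contDiffAt ((chartAt ℂ c').open_target.mem_nhds hτ)
  have h1 := lap_comp (f := fun z => f ((chartAt ℂ c').symm z)) (M1_open c c')
    (holo_trans c c') hz hcd
  rw [← h1]
  apply lap_congr
  filter_upwards [(M1_open c c').mem_nhds hz] with y hy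
  rw [(chartAt ℂ c').left_inv hy.2]

theorem M1_det (a : ℂ) :
    ((ContinuousLinearMap.toSpanSingleton ℂ a).restrictScalars ℝ : ℂ →L[ℝ] ℂ).det = ‖a‖ ^ 2 := by
  have h : ((ContinuousLinearMap.toSpanSingleton ℂ a).restrictScalars ℝ : ℂ →L[ℝ] ℂ).det =
      Algebra.norm ℝ a := by
    rw [ContinuousLinearMap.det]
    rw [Algebra.norm_apply]
    congr 1
    ext x <;> simp [mul_comm]
  rw [h, Algebra.norm_complex_apply, Complex.normSq_eq_norm_sq]

theorem transfer {f : C → ℝ} (hf : ContMDiff 𝓘(ℝ, ℂ) 𝓘(ℝ, ℝ) ∞ f) (g : C → ℝ) (c c' : C) :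
    ∫ z in (chartAt ℂ c).target ∩ (chartAt ℂ c).symm ⁻¹' (chartAt ℂ c').source,
        g ((chartAt ℂ c).symm z) * lap (fun z => f ((chartAt ℂ c).symm z)) z =
      ∫ z in (chartAt ℂ c').target ∩ (chartAt ℂ c').symm ⁻¹' (chartAt ℂ c).source,
        g ((chartAt ℂ c').symm z) * lap (fun z => f ((chartAt ℂ c').symm z)) z := by
  set O := (chartAt ℂ c).target ∩ (chartAt ℂ c).symm ⁻¹' (chartAt ℂ c').source with hO
  set O' := (chartAt ℂ c').target ∩ (chartAt ℂ c').symm ⁻¹' (chartAt ℂ c).source with hO'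
  set τ : ℂ → ℂ := fun z => chartAt ℂ c' ((chartAt ℂ c).symm z) with hτ
  have himg : τ '' O = O' := by
    ext y
    constructor
    · rintro ⟨z, hz, rfl⟩
      refine ⟨(chartAt ℂ c').map_source hz.2, ?_⟩
      simp only [hτ, mem_preimage]
      rw [(chartAt ℂ c').left_inv hz.2]
      exact (chartAt ℂ c).map_target hz.1
    · intro hy
      refine ⟨chartAt ℂ c ((chartAt ℂ c').symm y), ⟨(chartAt ℂ c).map_source hy.2, ?_⟩, ?_⟩
      · simp only [mem_preimage]
        rw [(chartAt ℂ c).left_inv hy.2]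
        exact (chartAt ℂ c').map_target hy.1
      · simp only [hτ]
        rw [(chartAt ℂ c).left_inv hy.2, (chartAt ℂ c').right_inv hy.1]
  have hinj : InjOn τ O := by
    intro x hx y hy hxy
    simp only [hτ] at hxy
    have h1 : (chartAt ℂ c).symm x = (chartAt ℂ c).symm y :=
      (chartAt ℂ c').injOn hx.2 hy.2 hxy
    have h2 := congrArg (chartAt ℂ c) h1
    rwa [(chartAt ℂ c).right_inv hx.1, (chartAt ℂ c).right_inv hy.1] at h2
  have hder : ∀ x ∈ O, HasFDerivWithinAt τ
      ((ContinuousLinearMap.toSpanSingleton ℂ (deriv τ x)).restrictScalars ℝ : ℂ →L[ℝ] ℂ) O x := by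
    intro x hx
    have h1 : DifferentiableAt ℂ τ x :=
      (holo_trans c c').differentiableAt ((M1_open c c').mem_nhds hx)
    exact (h1.hasDerivAt.hasFDerivAt.restrictScalars ℝ).hasFDerivWithinAt
  have key := integral_image_eq_integral_abs_det_fderiv_smul volume
    (M1_open c c').measurableSet hder hinj
    (fun z => g ((chartAt ℂ c').symm z) * lap (fun z => f ((chartAt ℂ c').symm z)) z)
  rw [← hO, himg] at key
  rw [key]
  apply setIntegral_congr_fun (M1_open c c').measurableSet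
  intro z hz
  simp only
  rw [M1_det, abs_of_nonneg (by positivity), smul_eq_mul, lap_trans hf c c' hz,
    (chartAt ℂ c').left_inv hz.2]
  ring

end Pool.Agent.Nef6
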