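import Pool.Agent.H.MP_6a1d6a_ag.K3
import Pool.Agent.H.MP_6a1d6a_ag.M1

/-!
MP_6a1d6a_ag, module S: on a compact Riemann surface, a function `u` which locally is `m(c) log|z - c| + (subharmonic)` has
`∑ m(c) ≤ 0`.

Proof of `sum_le_zero`. For c ∈ C let χ_c = chartAt ℂ c, z_c = χ_c c, R_c > 0 with ball z_c R_c ⊆ χ_c.target and
`LocForm (u ∘ χ_c.symm) z_c R_c (m c)`; U_c = χ_c.source ∩ χ_c ⁻¹' (ball z_c R_c), open, contains c.

(a) c' ∈ U_c, c' ≠ c implies m c' = 0: near χ_c c' the function u ∘ χ_c.symm is continuous at all points ≠ z_c of the ball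
(it equals m log|z - z_c| + w); so u is continuous at c', thus bounded near c', thus u ∘ χ_{c'}.symm is bounded near z_{c'},
but it equals m(c') log|z - z_{c'}| + w'(z) on a punctured neighbourhood: m(c') = 0.
(b) By compactness finitely many c_i (i ∈ s : Finset C) with C = ⋃ U_{c_i}. By (a) the support of m is contained in s, so
∑ᶠ m = ∑_{i ∈ s} m i (`finsum_eq_sum_of_support_subset`).
(c) `SmoothPartitionOfUnity.exists_isSubordinate` for the real manifold C (`real_manifold`), univ, and U : s → Set C; ψ_i smooth,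
ψ_i ≥ 0, ∑ ψ_i = 1 on C, tsupport ψ_i ⊆ U_i. If m i ≠ 0 then ψ_i(i) = 1: i ∉ U_j for j ≠ i by (a), so ψ_j(i) = 0.
(d) η_i := indicator (ball z_i R_i) (ψ_i ∘ χ_i.symm) is smooth on ℂ with compact support K_i = χ_i '' tsupport ψ_i in the ball
(smooth on the ball by `smooth_chart`, zero off the compact K_i), η_i(z_i) = ψ_i(i), η_i ≥ 0, and lap η_i = lap (ψ_i ∘ χ_i.symm) on the
ball. By `local_ineq`: m_i kap ψ_i(i) ≤ ∫ u_i lap η_i = ∫_{ball} u_i lap (ψ_i ∘ χ_i.symm), u_i = u ∘ χ_i.symm.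
(e) For i, j: a_ij := ∫_{O_ij} u_i (ψ_j ∘ χ_i.symm) lap (ψ_i ∘ χ_i.symm), O_ij = χ_i.target ∩ χ_i.symm ⁻¹' χ_j.source. ∑_j a_ij =
∫_{ball_i} u_i lap (ψ_i ∘ χ_i.symm): as ψ_i ∘ χ_i.symm vanishes near each point of χ_i.target off K_i, the integrand of a_ij is
supported in K_i, and ψ_j ∘ χ_i.symm vanishes off O_ij, so a_ij = ∫_ℂ u_i g_ij with g_ij = indicator of χ_i.target of (ψ_j ∘ χ_i.symm) ·
lap(ψ_i ∘ χ_i.symm), continuous with compact support in the ball (so u_i g_ij is integrable, `loc_int`) and ∑_j g_ij = lap η_i.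
By `transfer` (f = ψ_i, g = u ψ_j), a_ij = b_ij := ∫_{O_ji} u_j (ψ_j ∘ χ_j.symm) lap (ψ_i ∘ χ_j.symm) = ∫_ℂ u_j h_ij with
h_ij = indicator (χ_j.target) ((ψ_j ∘ χ_j.symm) lap (ψ_i ∘ χ_j.symm)), continuous with compact support in ball_j (inside K_j). On χ_j.target
∑_i lap (ψ_i ∘ χ_j.symm) = lap 1 = 0 (`lap_sum`, `lap_congr`, `lap_const`). So ∑_i b_ij = 0.
(f) kap ∑_i m_i = kap ∑_i m_i ψ_i(i) ≤ ∑_i ∑_j a_ij = ∑_j ∑_i b_ij = 0, kap > 0.
-/

open Set Filter Topology Metric MeasureTheory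
open scoped ContDiff Manifold

namespace Pool.Agent.Nef6

variable {C : Type} [TopologicalSpace C] [ChartedSpace ℂ C] [IsManifold 𝓘(ℂ) ω C] [CompactSpace C]
  [T2Space C]

theorem S_ind_zero {B K : Set ℂ} {φ : ℂ → ℝ} (h0 : ∀ z ∈ B, z ∉ K → φ z = 0) {z : ℂ}
    (hz : z ∉ K) : B.indicator φ z = 0 := by
  by_cases hB : z ∈ B
  · rw [Set.indicator_of_mem hB]; exact h0 z hB hz
  · exact Set.indicator_of_notMem hB φ

theorem S_ind_tsupport {B K : Set ℂ} {φ : ℂ → ℝ} (hK : IsClosed K)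
    (h0 : ∀ z ∈ B, z ∉ K → φ z = 0) : tsupport (B.indicator φ) ⊆ K := by
  refine closure_minimal ?_ hK
  intro z hz
  by_contra h
  exact hz (S_ind_zero h0 h)

theorem S_ind_ev_mem {B : Set ℂ} {φ : ℂ → ℝ} (hB : IsOpen B) {z : ℂ} (hz : z ∈ B) :
    B.indicator φ =ᶠ[𝓝 z] φ := by
  filter_upwards [hB.mem_nhds hz] with y hy
  exact Set.indicator_of_mem hy φ

theorem S_ind_ev_zero {B K : Set ℂ} {φ : ℂ → ℝ} (hK : IsClosed K)
    (h0 : ∀ z ∈ B, z ∉ K → φ z = 0) {z : ℂ} (hz : z ∉ K) :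
    B.indicator φ =ᶠ[𝓝 z] fun _ => 0 := by
  filter_upwards [hK.isOpen_compl.mem_nhds hz] with y hy
  exact S_ind_zero h0 hy

theorem S_ind_contDiff {B K : Set ℂ} {φ : ℂ → ℝ} (hB : IsOpen B) (hK : IsClosed K) (hKB : K ⊆ B)
    (hφ : ContDiffOn ℝ ∞ φ B) (h0 : ∀ z ∈ B, z ∉ K → φ z = 0) :
    ContDiff ℝ ∞ (B.indicator φ) := by
  rw [contDiff_iff_contDiffAt]
  intro z
  by_cases hz : z ∈ B
  · exact (hφ.contDiffAt (hB.mem_nhds hz)).congr_of_eventuallyEq (S_ind_ev_mem hB hz)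
  · exact contDiffAt_const.congr_of_eventuallyEq
      (S_ind_ev_zero hK h0 (fun h => hz (hKB h)))

theorem S_ind_cont {B K : Set ℂ} {φ : ℂ → ℝ} (hB : IsOpen B) (hK : IsClosed K) (hKB : K ⊆ B)
    (hφ : ContinuousOn φ B) (h0 : ∀ z ∈ B, z ∉ K → φ z = 0) :
    Continuous (B.indicator φ) := by
  rw [continuous_iff_continuousAt]
  intro z
  by_cases hz : z ∈ B
  · exact (hφ.continuousAt (hB.mem_nhds hz)).congr (S_ind_ev_mem hB hz).symm
  · exact continuousAt_const.congr (S_ind_ev_zero hK h0 (fun h => hz (hKB h))).symm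

/-- the log tends to minus infinity -/
theorem S_log (a : ℂ) : Tendsto (fun z : ℂ => Real.log ‖z - a‖) (𝓝[≠] a) atBot := by
  refine Real.tendsto_log_nhdsNE_zero.comp ?_
  refine tendsto_nhdsWithin_iff.mpr ⟨?_, ?_⟩
  · have : Continuous (fun z : ℂ => ‖z - a‖) := by fun_prop
    have h := this.tendsto a
    simp only [sub_self, norm_zero] at h
    exact h.mono_left nhdsWithin_le_nhds
  · filter_upwards [self_mem_nhdsWithin] with z hz
    simpa [sub_eq_zero] using hz

/-- the open set attached to a point -/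
def S_U (C : Type) [TopologicalSpace C] [ChartedSpace ℂ C] (R : C → ℝ) (c : C) : Set C :=
  (chartAt ℂ c).source ∩ (chartAt ℂ c) ⁻¹' ball (chartAt ℂ c c) (R c)

omit [IsManifold 𝓘(ℂ) ω C] [CompactSpace C] [T2Space C] in
theorem S_U_open (R : C → ℝ) (c : C) : IsOpen (S_U C R c) :=
  (chartAt ℂ c).isOpen_inter_preimage isOpen_ball

omit [IsManifold 𝓘(ℂ) ω C] [CompactSpace C] [T2Space C] in
theorem S_U_mem {R : C → ℝ} (hR : ∀ c, 0 < R c) (c : C) : c ∈ S_U C R c :=
  ⟨mem_chart_source ℂ c, mem_ball_self (hR c)⟩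

omit [IsManifold 𝓘(ℂ) ω C] [CompactSpace C] [T2Space C] in
/-- (a) -/
theorem S_other {u : C → ℝ} {m : C → ℤ} {R : C → ℝ} (hR : ∀ c, 0 < R c)
    (hsub : ∀ c, ball (chartAt ℂ c c) (R c) ⊆ (chartAt ℂ c).target)
    (hloc : ∀ c, LocForm (fun z => u ((chartAt ℂ c).symm z)) (chartAt ℂ c c) (R c) (m c))
    {c c' : C} (hc : c' ∈ S_U C R c) (hne : c' ≠ c) : m c' = 0 := by
  obtain ⟨w, hw, -, hwe⟩ := hloc c
  obtain ⟨w', hw', -, hwe'⟩ := hloc c'
  set a : ℂ := chartAt ℂ c' c' with ha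
  -- u is continuous at c'
  have h1 : ContinuousAt (fun z => u ((chartAt ℂ c).symm z)) (chartAt ℂ c c') := by
    have hz : chartAt ℂ c c' ≠ chartAt ℂ c c := by
      intro he
      exact hne ((chartAt ℂ c).injOn hc.1 (mem_chart_source ℂ c) he)
    have hn1 : ∀ᶠ z in 𝓝 (chartAt ℂ c c'), z ∈ ball (chartAt ℂ c c) (R c) :=
      isOpen_ball.mem_nhds hc.2
    have hn2 : ∀ᶠ z in 𝓝 (chartAt ℂ c c'), z ≠ chartAt ℂ c c := isOpen_ne.mem_nhds hz
    have hnh := hn1.and hn2
    have hcont : ContinuousAt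
        (fun z => (m c : ℝ) * Real.log ‖z - chartAt ℂ c c‖ + w z) (chartAt ℂ c c') := by
      refine ContinuousAt.add (continuousAt_const.mul ?_) (hw.continuousAt (isOpen_ball.mem_nhds hc.2))
      refine ContinuousAt.log (by fun_prop) ?_
      simpa [sub_eq_zero] using hz
    refine hcont.congr ?_
    filter_upwards [hnh] with z hz
    exact (hwe z hz.1 hz.2).symm
  have h2 : ContinuousAt u c' := by
    have h3 : ContinuousAt (fun x => u ((chartAt ℂ c).symm (chartAt ℂ c x))) c' :=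
      ContinuousAt.comp (f := fun x => chartAt ℂ c x) (g := fun z => u ((chartAt ℂ c).symm z))
        h1 ((chartAt ℂ c).continuousAt hc.1)
    refine h3.congr ?_
    filter_upwards [(chartAt ℂ c).open_source.mem_nhds hc.1] with x hx
    rw [(chartAt ℂ c).left_inv hx]
  have h4 : ContinuousAt (fun z => u ((chartAt ℂ c').symm z)) a := by
    refine ContinuousAt.comp (f := fun z => (chartAt ℂ c').symm z) (g := u) ?_
      ((chartAt ℂ c').continuousAt_symm (mem_chart_target ℂ c'))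
    rw [ha, (chartAt ℂ c').left_inv (mem_chart_source ℂ c')]
    exact h2
  have h5 : ContinuousAt w' a := hw'.continuousAt (ball_mem_nhds _ (hR c'))
  have h6 : Tendsto (fun z => (m c' : ℝ) * Real.log ‖z - a‖) (𝓝[≠] a)
      (𝓝 (u ((chartAt ℂ c').symm a) - w' a)) := by
    have h7 : Tendsto (fun z => u ((chartAt ℂ c').symm z) - w' z) (𝓝[≠] a)
        (𝓝 (u ((chartAt ℂ c').symm a) - w' a)) :=
      (h4.tendsto.sub h5.tendsto).mono_left nhdsWithin_le_nhds
    refine h7.congr' ?_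
    have h8 : ∀ᶠ z in 𝓝[≠] a, z ∈ ball a (R c') :=
      nhdsWithin_le_nhds (ball_mem_nhds _ (hR c'))
    filter_upwards [h8, self_mem_nhdsWithin] with z hz hz2
    have h9 := hwe' z hz hz2
    simp only at h9
    rw [h9]
    ring
  by_contra hm
  have hlog := S_log a
  rcases lt_or_gt_of_ne hm with hlt | hgt
  · have h9 : Tendsto (fun z => (m c' : ℝ) * Real.log ‖z - a‖) (𝓝[≠] a) atTop :=
      Tendsto.const_mul_atBot_of_neg (by exact_mod_cast hlt) hlog
    exact not_tendsto_nhds_of_tendsto_atTop h9 _ h6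
  · have h9 : Tendsto (fun z => (m c' : ℝ) * Real.log ‖z - a‖) (𝓝[≠] a) atBot :=
      Tendsto.const_mul_atBot (by exact_mod_cast hgt) hlog
    exact not_tendsto_nhds_of_tendsto_atBot h9 _ h6

omit [IsManifold 𝓘(ℂ) ω C] [T2Space C] in
theorem S_image {c : C} {R : C → ℝ} {f : C → ℝ} (hf : tsupport f ⊆ S_U C R c) :
    IsCompact ((chartAt ℂ c) '' tsupport f) ∧
      (chartAt ℂ c) '' tsupport f ⊆ ball (chartAt ℂ c c) (R c) := by
  refine ⟨(isClosed_tsupport f).isCompact.image_of_continuousOn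
    ((chartAt ℂ c).continuousOn.mono (fun x hx => (hf hx).1)), ?_⟩
  rintro _ ⟨x, hx, rfl⟩
  exact (hf hx).2

omit [IsManifold 𝓘(ℂ) ω C] [CompactSpace C] [T2Space C] in
theorem S_off0 {c : C} {f : C → ℝ} {z : ℂ} (h : (chartAt ℂ c).symm z ∉ tsupport f) :
    f ((chartAt ℂ c).symm z) = 0 :=
  image_eq_zero_of_notMem_tsupport h

omit [IsManifold 𝓘(ℂ) ω C] [CompactSpace C] [T2Space C] in
theorem S_off {c : C} {f : C → ℝ} {z : ℂ} (hz : z ∈ (chartAt ℂ c).target)
    (h : (chartAt ℂ c).symm z ∉ tsupport f) :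
    lap (fun z => f ((chartAt ℂ c).symm z)) z = 0 := by
  have h1 : (fun z => f ((chartAt ℂ c).symm z)) =ᶠ[𝓝 z] fun _ => (0 : ℝ) := by
    have h2 : ∀ᶠ x in 𝓝 ((chartAt ℂ c).symm z), x ∉ tsupport f :=
      (isClosed_tsupport f).isOpen_compl.mem_nhds h
    filter_upwards [((chartAt ℂ c).continuousAt_symm hz).eventually h2] with y hy
    exact image_eq_zero_of_notMem_tsupport hy
  rw [lap_congr h1, lap_const]

omit [IsManifold 𝓘(ℂ) ω C] [CompactSpace C] [T2Space C] in
theorem S_notin {c : C} {f : C → ℝ} {z : ℂ} (hz : z ∈ (chartAt ℂ c).target)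
    (h : z ∉ (chartAt ℂ c) '' tsupport f) : (chartAt ℂ c).symm z ∉ tsupport f := by
  intro h1
  exact h ⟨_, h1, (chartAt ℂ c).right_inv hz⟩

omit [CompactSpace C] [T2Space C] in
/-- the general form of the two integrals -/
theorem S_pair {u : C → ℝ} {m : C → ℤ} {R : C → ℝ}
    (hsub : ∀ c, ball (chartAt ℂ c c) (R c) ⊆ (chartAt ℂ c).target)
    (hloc : ∀ c, LocForm (fun z => u ((chartAt ℂ c).symm z)) (chartAt ℂ c c) (R c) (m c))
    {f g : C → ℝ} (hf : ContMDiff 𝓘(ℝ, ℂ) 𝓘(ℝ, ℝ) ∞ f) (hg : ContMDiff 𝓘(ℝ, ℂ) 𝓘(ℝ, ℝ) ∞ g)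
    (c c' : C) {K : Set ℂ} (hK : IsCompact K) (hKB : K ⊆ ball (chartAt ℂ c c) (R c))
    (h0 : ∀ z ∈ (chartAt ℂ c).target, z ∉ K →
      g ((chartAt ℂ c).symm z) * lap (fun z => f ((chartAt ℂ c).symm z)) z = 0)
    (h1 : ∀ z ∈ (chartAt ℂ c).target, (chartAt ℂ c).symm z ∉ (chartAt ℂ c').source →
      g ((chartAt ℂ c).symm z) * lap (fun z => f ((chartAt ℂ c).symm z)) z = 0) :
    Integrable (fun z => u ((chartAt ℂ c).symm z) *
        (ball (chartAt ℂ c c) (R c)).indicator (fun z =>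
          g ((chartAt ℂ c).symm z) * lap (fun z => f ((chartAt ℂ c).symm z)) z) z) ∧
    ∫ z in (chartAt ℂ c).target ∩ (chartAt ℂ c).symm ⁻¹' (chartAt ℂ c').source,
        (fun x => u x * g x) ((chartAt ℂ c).symm z) *
          lap (fun z => f ((chartAt ℂ c).symm z)) z =
      ∫ z, u ((chartAt ℂ c).symm z) *
        (ball (chartAt ℂ c c) (R c)).indicator (fun z =>
          g ((chartAt ℂ c).symm z) * lap (fun z => f ((chartAt ℂ c).symm z)) z) z := by
  have hcontg : ContinuousOn (fun z => g ((chartAt ℂ c).symm z)) (chartAt ℂ c).target :=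
    (smooth_chart hg c).continuousOn
  have hcontl : ContinuousOn (lap (fun z => f ((chartAt ℂ c).symm z))) (chartAt ℂ c).target :=
    lap_cont (chartAt ℂ c).open_target (smooth_chart hf c)
  have hcont : ContinuousOn (fun z => g ((chartAt ℂ c).symm z) *
      lap (fun z => f ((chartAt ℂ c).symm z)) z) (ball (chartAt ℂ c c) (R c)) :=
    (hcontg.mul hcontl).mono (hsub c)
  have h0' : ∀ z ∈ ball (chartAt ℂ c c) (R c), z ∉ K →
      (fun z => g ((chartAt ℂ c).symm z) * lap (fun z => f ((chartAt ℂ c).symm z)) z) z = 0 :=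
    fun z hz hzK => h0 z (hsub c hz) hzK
  have hts := S_ind_tsupport hK.isClosed h0'
  refine ⟨loc_int (hloc c) (S_ind_cont isOpen_ball hK.isClosed hKB hcont h0')
    (hK.of_isClosed_subset (isClosed_tsupport _) hts) (hts.trans hKB), ?_⟩
  have hO : MeasurableSet ((chartAt ℂ c).target ∩
      (chartAt ℂ c).symm ⁻¹' (chartAt ℂ c').source) :=
    ((chartAt ℂ c).symm.isOpen_inter_preimage (chartAt ℂ c').open_source).measurableSet
  rw [← integral_indicator hO]
  refine integral_congr_ae (Eventually.of_forall fun z => ?_)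
  simp only
  by_cases hzB : z ∈ ball (chartAt ℂ c c) (R c)
  · rw [Set.indicator_of_mem hzB]
    by_cases hzs : (chartAt ℂ c).symm z ∈ (chartAt ℂ c').source
    · rw [Set.indicator_of_mem (show z ∈ (chartAt ℂ c).target ∩
        (chartAt ℂ c).symm ⁻¹' (chartAt ℂ c').source from ⟨hsub c hzB, hzs⟩)]
      ring
    · rw [Set.indicator_of_notMem (fun h => hzs h.2), h1 z (hsub c hzB) hzs, mul_zero]
  · rw [Set.indicator_of_notMem hzB, mul_zero]
    by_cases hzO : z ∈ (chartAt ℂ c).target ∩ (chartAt ℂ c).symm ⁻¹' (chartAt ℂ c').source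
    · rw [Set.indicator_of_mem hzO, mul_assoc, h0 z hzO.1 (fun h => hzB (hKB h)), mul_zero]
    · rw [Set.indicator_of_notMem hzO]

omit [T2Space C] in
/-- (d) -/
theorem S_local {u : C → ℝ} {m : C → ℤ} {R : C → ℝ} (hR : ∀ c, 0 < R c)
    (hsub : ∀ c, ball (chartAt ℂ c c) (R c) ⊆ (chartAt ℂ c).target)
    (hloc : ∀ c, LocForm (fun z => u ((chartAt ℂ c).symm z)) (chartAt ℂ c c) (R c) (m c))
    {f : C → ℝ} (hf : ContMDiff 𝓘(ℝ, ℂ) 𝓘(ℝ, ℝ) ∞ f) (c : C) (hs : tsupport f ⊆ S_U C R c)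
    (h0 : ∀ x, 0 ≤ f x) :
    m c * kap * f c ≤ ∫ z, u ((chartAt ℂ c).symm z) *
      (ball (chartAt ℂ c c) (R c)).indicator (lap (fun z => f ((chartAt ℂ c).symm z))) z := by
  obtain ⟨hK, hKB⟩ := S_image hs
  set K := (chartAt ℂ c) '' tsupport f with hKdef
  set B := ball (chartAt ℂ c c) (R c) with hB
  have h1 : ∀ z ∈ B, z ∉ K → (fun z => f ((chartAt ℂ c).symm z)) z = 0 := fun z hz hzK =>
    S_off0 (S_notin (hsub c hz) hzK)
  have hsm := S_ind_contDiff isOpen_ball hK.isClosed hKB ((smooth_chart hf c).mono (hsub c)) h1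
  have hts := S_ind_tsupport hK.isClosed h1
  have h2 := local_ineq (hloc c) hsm (hK.of_isClosed_subset (isClosed_tsupport _) hts)
    (hts.trans hKB) (fun z => by
      by_cases hz : z ∈ B
      · rw [Set.indicator_of_mem hz]; exact h0 _
      · rw [Set.indicator_of_notMem hz])
  have h3 : B.indicator (fun z => f ((chartAt ℂ c).symm z)) (chartAt ℂ c c) = f c := by
    rw [Set.indicator_of_mem (mem_ball_self (hR c)),
      (chartAt ℂ c).left_inv (mem_chart_source ℂ c)]
  rw [h3] at h2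
  refine h2.trans (le_of_eq ?_)
  refine integral_congr_ae (Eventually.of_forall fun z => ?_)
  simp only
  congr 1
  by_cases hz : z ∈ B
  · rw [Set.indicator_of_mem hz]
    exact lap_congr (S_ind_ev_mem isOpen_ball hz)
  · rw [Set.indicator_of_notMem hz]
    exact lap_off (fun h => hz (hKB (hts h)))

/-- the local condition: `u` is `m c log|z - z_c| + w` near `c` in the chart at `c` -/
def LogForm (u : C → ℝ) (m : C → ℤ) : Prop :=
  ∀ c : C, ∃ R : ℝ, 0 < R ∧ ball (chartAt ℂ c c) R ⊆ (chartAt ℂ c).target ∧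
    LocForm (fun z => u ((chartAt ℂ c).symm z)) (chartAt ℂ c c) R (m c)

theorem sum_le_zero {u : C → ℝ} {m : C → ℤ} (h : LogForm u m) :
    (Function.support m).Finite ∧ ∑ᶠ c, m c ≤ 0 := by
  classical
  have : IsManifold 𝓘(ℝ, ℂ) ∞ C := real_manifold C
  choose R hR hsub hloc using h
  obtain ⟨t, ht⟩ := isCompact_univ.elim_nhds_subcover (S_U C R)
    (fun c _ => (S_U_open R c).mem_nhds (S_U_mem hR c))
  have hcov : ∀ x : C, ∃ i ∈ t, x ∈ S_U C R i := by
    intro x
    have := ht.2 (Set.mem_univ x)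
    simpa using this
  have hsupp : Function.support m ⊆ (t : Set C) := by
    intro x hx
    obtain ⟨i, hi, hxi⟩ := hcov x
    by_cases hne : x = i
    · rw [hne]; exact hi
    · exact absurd (S_other hR hsub hloc hxi hne) hx
  refine ⟨t.finite_toSet.subset hsupp, ?_⟩
  rw [finsum_eq_sum_of_support_subset m hsupp]
  -- partition of unity
  obtain ⟨ψ, hψ⟩ := SmoothPartitionOfUnity.exists_isSubordinate 𝓘(ℝ, ℂ) (isClosed_univ (X := C))
    (fun i : t => S_U C R i) (fun i => S_U_open R i) (fun x _ => by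
      obtain ⟨i, hi, hxi⟩ := hcov x
      exact Set.mem_iUnion.mpr ⟨⟨i, hi⟩, hxi⟩)
  have hsm : ∀ i, ContMDiff 𝓘(ℝ, ℂ) 𝓘(ℝ, ℝ) ∞ (ψ i : C → ℝ) := fun i => (ψ i).contMDiff
  have hnn : ∀ i x, 0 ≤ ψ i x := fun i x => ψ.nonneg i x
  have hsum : ∀ x, ∑ i, ψ i x = 1 := by
    intro x
    have := ψ.sum_eq_one (Set.mem_univ x)
    rwa [finsum_eq_sum_of_fintype] at this
  have hsup : ∀ i : t, tsupport (ψ i : C → ℝ) ⊆ S_U C R i := fun i => hψ i
  -- the value of ψ_i at the centre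
  have hone : ∀ i : t, (m i : ℝ) * ψ i i = m i := by
    intro i
    by_cases hmi : m i = 0
    · simp [hmi]
    · have h1 : ∀ j : t, j ≠ i → ψ j (i : C) = 0 := by
        intro j hj
        refine image_eq_zero_of_notMem_tsupport (fun hmem => hmi ?_)
        exact S_other hR hsub hloc (hsup j hmem) (fun he => hj (Subtype.ext he.symm))
      have h2 := hsum (i : C)
      rw [Finset.sum_eq_single i (fun j _ hj => h1 j hj)
        (fun h => absurd (Finset.mem_univ i) h)] at h2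
      rw [h2, mul_one]
  -- the two families of integrals
  let A : t → t → ℂ → ℝ := fun i j z => u ((chartAt ℂ (i : C)).symm z) *
    (ball (chartAt ℂ (i : C) i) (R i)).indicator (fun z =>
      ψ j ((chartAt ℂ (i : C)).symm z) * lap (fun z => ψ i ((chartAt ℂ (i : C)).symm z)) z) z
  let B : t → t → ℂ → ℝ := fun i j z => u ((chartAt ℂ (j : C)).symm z) *
    (ball (chartAt ℂ (j : C) j) (R j)).indicator (fun z =>
      ψ j ((chartAt ℂ (j : C)).symm z) * lap (fun z => ψ i ((chartAt ℂ (j : C)).symm z)) z) z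
  have hA : ∀ i j : t, Integrable (A i j) ∧
      ∫ z in (chartAt ℂ (i : C)).target ∩ (chartAt ℂ (i : C)).symm ⁻¹' (chartAt ℂ (j : C)).source,
        (fun x => u x * ψ j x) ((chartAt ℂ (i : C)).symm z) *
          lap (fun z => ψ i ((chartAt ℂ (i : C)).symm z)) z = ∫ z, A i j z := by
    intro i j
    obtain ⟨hK, hKB⟩ := S_image (hsup i)
    refine S_pair hsub hloc (hsm i) (hsm j) (i : C) (j : C) hK hKB ?_ ?_
    · intro z hz hzK
      rw [S_off hz (S_notin hz hzK), mul_zero]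
    · intro z hz hzs
      rw [S_off0 (f := ψ j) (fun hm => hzs (hsup j hm).1), zero_mul]
  have hB : ∀ i j : t, Integrable (B i j) ∧
      ∫ z in (chartAt ℂ (j : C)).target ∩ (chartAt ℂ (j : C)).symm ⁻¹' (chartAt ℂ (i : C)).source,
        (fun x => u x * ψ j x) ((chartAt ℂ (j : C)).symm z) *
          lap (fun z => ψ i ((chartAt ℂ (j : C)).symm z)) z = ∫ z, B i j z := by
    intro i j
    obtain ⟨hK, hKB⟩ := S_image (hsup j)
    refine S_pair hsub hloc (hsm i) (hsm j) (j : C) (i : C) hK hKB ?_ ?_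
    · intro z hz hzK
      rw [S_off0 (f := ψ j) (S_notin hz hzK), zero_mul]
    · intro z hz hzs
      rw [S_off hz (fun hm => hzs (hsup i hm).1), mul_zero]
  have hAB : ∀ i j : t, ∫ z, A i j z = ∫ z, B i j z := by
    intro i j
    rw [← (hA i j).2, ← (hB i j).2]
    exact transfer (hsm i) (fun x => u x * ψ j x) (i : C) (j : C)
  -- the sums
  have hsA : ∀ i : t, ∑ j, ∫ z, A i j z = ∫ z, u ((chartAt ℂ (i : C)).symm z) *
      (ball (chartAt ℂ (i : C) i) (R i)).indicator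
        (lap (fun z => ψ i ((chartAt ℂ (i : C)).symm z))) z := by
    intro i
    rw [← integral_finsetSum _ (fun j _ => (hA i j).1)]
    refine integral_congr_ae (Eventually.of_forall fun z => ?_)
    simp only [A]
    rw [← Finset.mul_sum]
    congr 1
    by_cases hz : z ∈ ball (chartAt ℂ (i : C) i) (R i)
    · simp only [Set.indicator_of_mem hz]
      rw [← Finset.sum_mul, hsum, one_mul]
    · simp only [Set.indicator_of_notMem hz, Finset.sum_const_zero]
  have hsB : ∀ j : t, ∑ i, ∫ z, B i j z = 0 := by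
    intro j
    rw [← integral_finsetSum _ (fun i _ => (hB i j).1)]
    have hz0 : ∀ z, ∑ i, B i j z = 0 := by
      intro z
      simp only [B]
      rw [← Finset.mul_sum]
      by_cases hz : z ∈ ball (chartAt ℂ (j : C) j) (R j)
      · simp only [Set.indicator_of_mem hz]
        rw [← Finset.mul_sum, ← lap_sum Finset.univ (f := fun i : t => fun z =>
          ψ i ((chartAt ℂ (j : C)).symm z)) (fun i _ =>
            (smooth_chart (hsm i) (j : C)).contDiffAt
              ((chartAt ℂ (j : C)).open_target.mem_nhds (hsub j hz)))]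
        simp only [hsum]
        rw [lap_const, mul_zero, mul_zero]
      · simp only [Set.indicator_of_notMem hz, Finset.sum_const_zero, mul_zero]
    simp only [hz0, integral_zero]
  have hfin : (∑ i : t, (m i : ℝ)) * kap ≤ 0 := by
    calc (∑ i : t, (m i : ℝ)) * kap = ∑ i : t, (m i : ℝ) * kap * ψ i i := by
          rw [Finset.sum_mul]
          refine Finset.sum_congr rfl (fun i _ => ?_)
          rw [mul_right_comm, hone i]
      _ ≤ ∑ i : t, ∑ j, ∫ z, A i j z := by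
          refine Finset.sum_le_sum (fun i _ => ?_)
          rw [hsA i]
          exact S_local hR hsub hloc (hsm i) (i : C) (hsup i) (hnn i)
      _ = ∑ i : t, ∑ j, ∫ z, B i j z := by
          refine Finset.sum_congr rfl (fun i _ => Finset.sum_congr rfl (fun j _ => hAB i j))
      _ = 0 := by
          rw [Finset.sum_comm]
          exact Finset.sum_eq_zero (fun j _ => hsB j)
  have h3 : (∑ i : t, (m i : ℝ)) ≤ 0 := by
    by_contra hlt
    push Not at hlt
    exact absurd hfin (not_le.mpr (mul_pos hlt kap_pos))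
  rw [← Finset.sum_coe_sort t m]
  exact_mod_cast h3

end Pool.Agent.Nef6
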