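import Mathlib

/-!
MP_6a1d6a_ag, module W: the logarithm of the supremum of a bounded family of holomorphic functions.

S(z) = sup_i ‖H_i z‖.
* continuity: on ball a R the H_i are bounded by K; on a smaller ball (around b, ball b (2ρ) ⊆ ball a R) all H_i are Lipschitz on
  ball b ρ with the same constant (Cauchy estimates: `Complex.norm_deriv_le_of_forall_mem_sphere_norm_le`, or
  `Complex.dist_le_div_mul_dist_of_mapsTo_ball`; see also `cauchy_lip` in MP_e23cd6_ag/AB/A1.lean), so S is Lipschitz on ball b ρ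
  (|sup - sup| ≤ sup |..|). S > 0, so log S is continuous.
* sub-mean value property: given closedBall b r ⊆ ball a R and ε > 0; S(b) > 0, choose i with ‖H_i b‖ ≥ e^{-ε} S(b) > 0.
  λ > 0 large with λ S ≥ 1 on sphere b r (compact, S continuous positive). On the sphere log‖λ H_i‖ ≤ log (λ S) (if
  H_i z = 0 the left side is log 0 = 0). Jensen (`AnalyticOnNhd.circleAverage_log_norm`, all terms of the finsum are ≥ 0:
  the divisor of an analytic function is ≥ 0, and ‖b - u‖ ≤ r) gives log‖λ H_i b‖ ≤ circleAverage (log‖λ H_i ·‖) b r ≤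
  circleAverage (log (λ S)) b r = log λ + circleAverage (log S) b r. So log S(b) - ε ≤ circleAverage (log S) b r.
-/

open Set Filter Topology Metric

namespace Pool.Agent.Nef6

theorem W_fderiv {f : ℂ → ℂ} {x : ℂ} {r m : ℝ} (hr : 0 < r)
    (hf : DifferentiableOn ℂ f (ball x r)) (hm : ∀ y ∈ ball x r, ‖f y‖ ≤ m) :
    ‖fderiv ℂ f x‖ ≤ 2 * m / r := by
  refine Complex.norm_fderiv_le_div_of_mapsTo_ball hf (fun y hy => ?_) hr
  rw [mem_closedBall, dist_eq_norm]
  have h1 := hm y hy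
  have h2 := hm x (mem_ball_self hr)
  have h3 := norm_sub_le (f y) (f x)
  linarith

theorem W_lip {f : ℂ → ℂ} {x : ℂ} {r m : ℝ} (hr : 0 < r)
    (hf : DifferentiableOn ℂ f (ball x r)) (hm : ∀ y ∈ ball x r, ‖f y‖ ≤ m)
    {y z : ℂ} (hy : y ∈ ball x (r / 2)) (hz : z ∈ ball x (r / 2)) :
    ‖f y - f z‖ ≤ 4 * m / r * ‖y - z‖ := by
  have hsub : ∀ u ∈ ball x (r / 2), ball u (r / 2) ⊆ ball x r := by
    intro u hu
    refine ball_subset_ball' ?_
    rw [mem_ball] at hu
    linarith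
  refine Convex.norm_image_sub_le_of_norm_fderiv_le (𝕜 := ℂ) (s := ball x (r / 2)) ?_ ?_
    (convex_ball x (r / 2)) hz hy
  · intro u hu
    exact hf.differentiableAt (isOpen_ball.mem_nhds (hsub u hu (mem_ball_self (by positivity))))
  · intro u hu
    have h := W_fderiv (x := u) (r := r / 2) (m := m) (by positivity)
      (hf.mono (hsub u hu)) (fun y hy => hm y (hsub u hu hy))
    have e : 2 * m / (r / 2) = 4 * m / r := by
      field_simp
      ring
    rwa [e] at h

theorem W_bdd {ι : Type*} {a : ℂ} {R K : ℝ} {H : ι → ℂ → ℂ}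
    (hK : ∀ i, ∀ z ∈ ball a R, ‖H i z‖ ≤ K) {z : ℂ} (hz : z ∈ ball a R) :
    BddAbove (range fun i => ‖H i z‖) :=
  ⟨K, by rintro _ ⟨i, rfl⟩; exact hK i z hz⟩

theorem W_pos {ι : Type*} {a : ℂ} {R K : ℝ} {H : ι → ℂ → ℂ}
    (hK : ∀ i, ∀ z ∈ ball a R, ‖H i z‖ ≤ K) (hpos : ∀ z ∈ ball a R, ∃ i, H i z ≠ 0)
    {z : ℂ} (hz : z ∈ ball a R) : 0 < ⨆ i, ‖H i z‖ := by
  obtain ⟨i, hi⟩ := hpos z hz
  exact (norm_pos_iff.2 hi).trans_le (le_ciSup (W_bdd hK hz) i)

theorem sup_cont {ι : Type*} [Nonempty ι] {a : ℂ} {R K : ℝ} {H : ι → ℂ → ℂ}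
    (hH : ∀ i, DifferentiableOn ℂ (H i) (ball a R)) (hK : ∀ i, ∀ z ∈ ball a R, ‖H i z‖ ≤ K) :
    ContinuousOn (fun z => ⨆ i, ‖H i z‖) (ball a R) := by
  intro b hb
  refine ContinuousAt.continuousWithinAt ?_
  obtain ⟨r, hr, hbr⟩ := Metric.isOpen_iff.1 isOpen_ball b hb
  have hin : ∀ y, y ∈ ball b (r / 2) → y ∈ ball a R := fun y hy =>
    hbr (ball_subset_ball (by linarith) hy)
  have key : ∀ y ∈ ball b (r / 2), ∀ z ∈ ball b (r / 2),
      (⨆ i, ‖H i y‖) ≤ (⨆ i, ‖H i z‖) + 4 * K / r * dist y z := by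
    intro y hy z hz
    refine ciSup_le fun i => ?_
    have h1 := W_lip hr ((hH i).mono hbr) (fun u hu => hK i u (hbr hu)) hy hz
    have h2 := le_ciSup (W_bdd hK (hin z hz)) i
    have h3 := norm_le_norm_add_norm_sub' (H i y) (H i z)
    rw [← dist_eq_norm y z] at h1
    linarith
  have hb' : b ∈ ball b (r / 2) := mem_ball_self (by positivity)
  refine continuousAt_of_locally_lipschitz (half_pos hr) (4 * K / r) fun y hy => ?_
  have hy' : y ∈ ball b (r / 2) := hy
  rw [Real.dist_eq, abs_sub_le_iff]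
  have h1 := key y hy' b hb'
  have h2 := key b hb' y hy'
  rw [dist_comm b y] at h2
  constructor <;> linarith

theorem log_sup_cont {ι : Type*} [Nonempty ι] {a : ℂ} {R K : ℝ} {H : ι → ℂ → ℂ}
    (hH : ∀ i, DifferentiableOn ℂ (H i) (ball a R)) (hK : ∀ i, ∀ z ∈ ball a R, ‖H i z‖ ≤ K)
    (hpos : ∀ z ∈ ball a R, ∃ i, H i z ≠ 0) :
    ContinuousOn (fun z => Real.log (⨆ i, ‖H i z‖)) (ball a R) :=
  ContinuousOn.log (sup_cont hH hK) fun _ hz => (W_pos hK hpos hz).ne'

/-- Jensen's inequality for the logarithm of the modulus of an analytic function. -/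
theorem W_jensen {f : ℂ → ℂ} {b : ℂ} {r : ℝ} (hr : 0 < r)
    (hf : AnalyticOnNhd ℂ f (closedBall b |r|)) (hb : f b ≠ 0) :
    Real.log ‖f b‖ ≤ Real.circleAverage (fun z => Real.log ‖f z‖) b r := by
  rw [hf.circleAverage_log_norm hr.ne' hb]
  refine le_add_of_nonneg_left (finsum_nonneg fun u => ?_)
  by_cases hu : u ∈ closedBall b |r|
  · refine mul_nonneg (mod_cast MeromorphicOn.AnalyticOnNhd.divisor_nonneg hf u) ?_
    by_cases hbu : b = u
    · simp [hbu]
    · have h1 : 0 < ‖b - u‖ := norm_pos_iff.2 (sub_ne_zero.2 hbu)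
      refine Real.log_nonneg ?_
      rw [mem_closedBall, dist_comm, dist_eq_norm, abs_of_pos hr] at hu
      rw [← div_eq_mul_inv, one_le_div h1]
      exact hu
  · simp [hu]

theorem log_sup_sub {ι : Type*} [Nonempty ι] {a : ℂ} {R K : ℝ} {H : ι → ℂ → ℂ}
    (hH : ∀ i, DifferentiableOn ℂ (H i) (ball a R)) (hK : ∀ i, ∀ z ∈ ball a R, ‖H i z‖ ≤ K)
    (hpos : ∀ z ∈ ball a R, ∃ i, H i z ≠ 0) {b : ℂ} {r : ℝ} (hr : 0 < r)
    (hb : closedBall b r ⊆ ball a R) :
    Real.log (⨆ i, ‖H i b‖) ≤ Real.circleAverage (fun z => Real.log (⨆ i, ‖H i z‖)) b r := by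
  have hbb : b ∈ ball a R := hb (mem_closedBall_self hr.le)
  have hsph : sphere b r ⊆ ball a R := sphere_subset_closedBall.trans hb
  have hS0 := W_pos hK hpos hbb
  -- the constant
  obtain ⟨z0, hz0, hmin⟩ := (isCompact_sphere b r).exists_isMinOn
    (NormedSpace.sphere_nonempty.2 hr.le) ((sup_cont hH hK).mono hsph)
  have hm := W_pos hK hpos (hsph hz0)
  set m : ℝ := ⨆ i, ‖H i z0‖ with hmdef
  have hle : ∀ z ∈ sphere b r, m ≤ ⨆ i, ‖H i z‖ := fun z hz => hmin hz
  have hinv : 0 < m⁻¹ := inv_pos.2 hm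
  have hcont : ContinuousOn (fun z => Real.log (⨆ i, ‖H i z‖)) (sphere b |r|) := by
    rw [abs_of_pos hr]
    exact (log_sup_cont hH hK hpos).mono hsph
  have hint : CircleIntegrable (fun z => Real.log (⨆ i, ‖H i z‖)) b r :=
    hcont.circleIntegrable'
  have key : ∀ i, H i b ≠ 0 →
      Real.log ‖H i b‖ ≤ Real.circleAverage (fun z => Real.log (⨆ i, ‖H i z‖)) b r := by
    intro i hi
    have han : AnalyticOnNhd ℂ (fun z => (m⁻¹ : ℂ) * H i z) (closedBall b |r|) := by
      rw [abs_of_pos hr]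
      exact analyticOnNhd_const.mul (((hH i).analyticOnNhd isOpen_ball).mono hb)
    have hne : (m⁻¹ : ℂ) * H i b ≠ 0 :=
      mul_ne_zero (inv_ne_zero (by exact_mod_cast hm.ne')) hi
    have hnorm : ∀ z, ‖(m⁻¹ : ℂ) * H i z‖ = m⁻¹ * ‖H i z‖ := by
      intro z
      rw [norm_mul, norm_inv, Complex.norm_real, Real.norm_of_nonneg hm.le]
    have h1 := W_jensen hr han hne
    have h2 : Real.circleAverage (fun z => Real.log ‖(m⁻¹ : ℂ) * H i z‖) b r ≤
        Real.circleAverage (fun z => Real.log m⁻¹ + Real.log (⨆ i, ‖H i z‖)) b r := by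
      refine Real.circleAverage_mono ?_ ?_ ?_
      · exact (han.mono sphere_subset_closedBall).meromorphicOn.circleIntegrable_log_norm
      · exact (continuousOn_const.add hcont).circleIntegrable'
      · intro z hz
        rw [abs_of_pos hr] at hz
        have hzR := hsph hz
        have h3 := hle z hz
        have h4 := W_pos hK hpos hzR
        rw [← Real.log_mul hinv.ne' h4.ne', hnorm]
        by_cases h0 : H i z = 0
        · rw [h0, norm_zero, mul_zero, Real.log_zero]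
          refine Real.log_nonneg ?_
          calc (1 : ℝ) = m⁻¹ * m := (inv_mul_cancel₀ hm.ne').symm
            _ ≤ _ := mul_le_mul_of_nonneg_left h3 hinv.le
        · refine Real.log_le_log (mul_pos hinv (norm_pos_iff.2 h0)) ?_
          exact mul_le_mul_of_nonneg_left (le_ciSup (W_bdd hK hzR) i) hinv.le
    rw [Real.circleAverage_fun_add (circleIntegrable_const _ _ _) hint,
      Real.circleAverage_const] at h2
    rw [hnorm, Real.log_mul hinv.ne' (norm_pos_iff.2 hi).ne'] at h1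
    linarith
  rw [Real.log_le_iff_le_exp hS0]
  refine ciSup_le fun i => ?_
  by_cases hi : H i b = 0
  · rw [hi, norm_zero]
    exact (Real.exp_pos _).le
  · exact (Real.log_le_iff_le_exp (norm_pos_iff.2 hi)).1 (key i hi)

end Pool.Agent.Nef6
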