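import Pool.Agent.H.MP_6a1d6a_ag.G
import Pool.Agent.H.MP_e23cd6_ag.AB.F0

/-!
MP_6a1d6a_ag, module Car: the family of the derivatives of the holomorphic maps from the domain to the unit disc.

`car A : FormFam A.toBaseAct (E n)`, K γ b v = D(β γ)(b) v, index set UD Ω (AB/F0.lean), f h = fderiv ℂ h.
* `K_inv`: β γ⁻¹ ∘ β γ = id on the open set D; chain rule.
* `holo`: `holo_fderiv` (AB/A6.lean); `bdd`: `ud_bound`; `inv`: h ∘ β γ ∈ UD (`ud_comp`) and the chain rule;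
  `pos`: as in `carLen_pos` (if all ‖fderiv ℂ h b v‖ = 0 then carLen Ω b v ≤ 0 by `carLen_le`).
-/

set_option autoImplicit false

open Set Filter Topology Metric

namespace Pool.Agent.Nef6

open Pool.Agent.H.MP_e23cd6_ag.AB (Dom BaseAct)

open Pool.Agent.H.MP_e23cd6_ag.AB in
theorem Car_inv {n : ℕ} {Ω : Dom n} {Γ : Type} [Group Γ] (A : BaseAct Ω Γ) (γ : Γ)
    {b : Fin n → ℂ} (hb : b ∈ Ω.D) (v : Fin n → ℂ) :
    fderiv ℂ (A.β γ⁻¹) (A.β γ b) (fderiv ℂ (A.β γ) b v) = v := by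
  have hβd : ∀ (δ : Γ) {c : Fin n → ℂ}, c ∈ Ω.D → DifferentiableAt ℂ (A.β δ) c := fun δ c hc =>
    (A.holo δ).differentiableAt (Ω.isOpen.mem_nhds hc)
  have h1 := ((hβd γ⁻¹ (A.maps γ hb)).hasFDerivAt.comp b (hβd γ hb).hasFDerivAt).fderiv
  have h2 : (A.β γ⁻¹ ∘ A.β γ) =ᶠ[𝓝 b] id := by
    filter_upwards [Ω.isOpen.mem_nhds hb] with x hx
    exact A.inv_left γ hx
  rw [h2.fderiv_eq, fderiv_id] at h1
  have h3 := congrArg (fun L : (Fin n → ℂ) →L[ℂ] (Fin n → ℂ) => L v) h1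
  exact h3.symm

open Pool.Agent.H.MP_e23cd6_ag.AB in
theorem Car_chain {n : ℕ} {Ω : Dom n} {Γ : Type} [Group Γ] (A : BaseAct Ω Γ) (γ : Γ)
    {f : (Fin n → ℂ) → ℂ} (hf : f ∈ UD Ω) {b : Fin n → ℂ} (hb : b ∈ Ω.D) (v : Fin n → ℂ) :
    fderiv ℂ (fun x => f (A.β γ x)) b v = fderiv ℂ f (A.β γ b) (fderiv ℂ (A.β γ) b v) := by
  have hβd : DifferentiableAt ℂ (A.β γ) b := (A.holo γ).differentiableAt (Ω.isOpen.mem_nhds hb)
  have hfd : DifferentiableAt ℂ f (A.β γ b) :=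
    hf.1.differentiableAt (Ω.isOpen.mem_nhds (A.maps γ hb))
  have h1 := (hfd.hasFDerivAt.comp b hβd.hasFDerivAt).fderiv
  have h2 : (f ∘ A.β γ) = fun x => f (A.β γ x) := rfl
  rw [h2] at h1
  rw [h1]
  rfl

open Pool.Agent.H.MP_e23cd6_ag.AB in
theorem exists_car {n : ℕ} {Ω : Dom n} {Γ : Type} [Group Γ] (A : BaseAct Ω Γ) :
    ∃ Φ : FormFam A (Fin n → ℂ), ∀ γ b v, Φ.K γ b v = fderiv ℂ (A.β γ) b v := by
  refine ⟨{
    K := fun γ b v => fderiv ℂ (A.β γ) b v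
    K_inv := fun γ b hb v => Car_inv A γ hb v
    ι := UD Ω
    ne := ⟨⟨_, zero_mem_ud Ω⟩⟩
    f := fun h => fderiv ℂ h.1
    holo := fun h => holo_fderiv Ω.isOpen h.2.1
    bdd := ?_
    inv := fun h γ => ⟨⟨_, ud_comp A γ h.2⟩, fun b hb v => Car_chain A γ h.2 hb v⟩
    pos := ?_ }, fun _ _ _ => rfl⟩
  · intro S hS hSc
    obtain ⟨C, ρ, _, _, _, h⟩ := ud_bound Ω hS hSc
    exact ⟨C, fun i b hb => (h i.1 i.2 b hb).1⟩
  · intro b hb v hv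
    by_contra hcon
    push Not at hcon
    have h1 : carLen Ω b v ≤ 0 := carLen_le fun f hf => by
      rw [hcon ⟨f, hf⟩, norm_zero]
    exact absurd (carLen_pos hb hv) (not_lt.2 h1)

end Pool.Agent.Nef6
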