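import Mathlib

/-!
MP_6a1d6a_ag (nefness of cotangent bundles): the definitions used in the statement. Complex manifolds are
Mathlib manifolds `IsManifold 𝓘(ℂ, E) ω Y` modelled on a finite dimensional complex normed space `E`;
holomorphic means complex analytic in charts.
-/

set_option autoImplicit false

open scoped Manifold ContDiff Topology
open Set

namespace Pool.Agent.Nef6

variable (E : Type) [NormedAddCommGroup E] [NormedSpace ℂ E]
variable (Y : Type) [TopologicalSpace Y] [ChartedSpace E Y]

/-- The holomorphic charts of the complex manifold `Y` (the maximal atlas). -/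
abbrev Charts : Set (OpenPartialHomeomorph Y E) := IsManifold.maximalAtlas 𝓘(ℂ, E) ω Y

variable {E Y}

/-- `σ` is a meromorphic vector field of `Y` along the map `ν : C → Y` from a Riemann surface `C`, i.e. a
meromorphic section of the pulled back tangent bundle `ν^* TY`: `σ φ c ∈ E` are its coordinates at the point
`c` in the chart `φ` (with some values assigned at the poles). The integer `o c` is its order at `c`: the order
of vanishing, or minus the order of the pole (in particular `σ` is not identically zero). -/
def IsMeroField {C : Type} [TopologicalSpace C] [ChartedSpace ℂ C] (ν : C → Y)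
    (σ : OpenPartialHomeomorph Y E → C → E) (o : C → ℤ) : Prop :=
  (∀ φ ∈ Charts E Y, ∀ ψ ∈ Charts E Y, ∀ c, ν c ∈ φ.source → ν c ∈ ψ.source →
    σ ψ c = fderiv ℂ (ψ ∘ φ.symm) (φ (ν c)) (σ φ c)) ∧
  ∀ φ ∈ Charts E Y, ∀ χ ∈ Charts ℂ C, ∀ c, ν c ∈ φ.source → c ∈ χ.source →
    MeromorphicAt (σ φ ∘ χ.symm) (χ c) ∧ meromorphicOrderAt (σ φ ∘ χ.symm) (χ c) = (o c : WithTop ℤ)

variable (E Y)

/-- The cotangent bundle `T^*Y` is nef. The curves in `ℙ(T^*Y)` (the bundle of one dimensional quotients of
`T^*Y`, i.e. of lines in `TY`) are given by a compact connected Riemann surface `C`, a holomorphic map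
`ν : C → Y` and a line subbundle `N` of `ν^* TY`, and the degree of `𝒪(1)` on such a curve is `- deg N`.
A meromorphic vector field `σ` along `ν` spans a line subbundle `N` with `deg N = ∑ (order of σ at c)`, and
each `N` is of this form. -/
def CotangentNef : Prop :=
  ∀ (C : Type) [TopologicalSpace C] [ChartedSpace ℂ C] [IsManifold 𝓘(ℂ) ω C] [CompactSpace C]
    [T2Space C] [ConnectedSpace C] (ν : C → Y), ContMDiff 𝓘(ℂ) 𝓘(ℂ, E) ω ν →
    ∀ (σ : OpenPartialHomeomorph Y E → C → E) (o : C → ℤ), IsMeroField ν σ o → ∑ᶠ c, o c ≤ 0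

end Pool.Agent.Nef6
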