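import Pool.Agent.H.MP_6a1d6a_ag.Defs
import Pool.Agent.H.MP_6a1d6a_ag.S
import Pool.Agent.H.MP_6a1d6a_ag.W
import Pool.Agent.H.MP_e23cd6_ag.AK.Defs

/-!
MP_6a1d6a_ag, module G: invariant families of holomorphic forms and the degree of curves of tangent lines.

`FormFam A Q`: an action `K γ b` on the vector space Q over the action β on the domain, and a nonempty family of holomorphic
functions f_i from the domain to the linear forms on Q, locally bounded, invariant, without common zeros at nonzero vectors.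
`nrm Φ b v` = sup_i |f_i(b) v|.
`Good p φ`: φ is a holomorphic chart of Y with target inside TM and p = φ.symm there (so φ is a local inverse of p).

* `nrm_smul`, `nrm_pos`, `nrm_inv`: as f_i(β γ b)(K γ b v) = f_j(b) v one has nrm (β γ b) (K γ b v) ≤ nrm b v; apply this
  to γ⁻¹ and `K_inv` for the other inequality.
* `nrm_log`: choose 0 < ρ < R with g ≠ 0 on closedBall a ρ; b '' closedBall a ρ is compact in D, so the functions
  H_i z = f_i (b z) (g z) are uniformly bounded on ball a ρ, holomorphic (`DifferentiableOn.clm_apply`, composition);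
  `log_sup_cont`, `log_sup_sub`.
* `good_exists`: y = p x, x ∈ φ.target, y = φ.symm x ∈ φ.source.
* `good_trans`: p (φ y) = φ.symm (φ y) = y = p (φ' y), so act γ (φ y) = φ' y for some γ. For x' near x = φ y (in φ.target, with
  act γ x' ∈ φ'.target: open condition by continuity of act γ on the open set TM): φ'.symm (act γ x') = p (act γ x') = p x' = φ.symm x',
  so act γ x' = φ' (φ.symm x').
* `fam_sum_le`: for c ∈ C choose a good chart φ_c with ν c ∈ φ_c.source and put u c = log nrm (φ_c (ν c)).1 (q (σ φ_c c)). Show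
  `LogForm u m` and use `sum_le_zero`. Fix c, χ = chartAt ℂ c, z_c = χ c, and φ from hm. For c' near c, c' ≠ c (hK, ν c' ∈ φ.source):
  with γ from `good_trans` (φ, φ_{c'}): φ_{c'} (ν c') = act γ (φ (ν c')), σ φ_{c'} c' = D(φ_{c'} ∘ φ.symm)(φ (ν c')) (σ φ c') =
  D(act γ)(φ (ν c')) (σ φ c'), so q (σ φ_{c'} c') = K γ (φ (ν c')).1 (q (σ φ c')), and (act γ x).1 = β γ x.1; `nrm_inv` gives
  u c' = log nrm (φ (ν c')).1 (q (σ φ c')). By `meromorphicOrderAt_eq_int_iff` q (σ φ (χ.symm z)) = (z - z_c)^m • g z for z ≠ z_c near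
  z_c, g analytic at z_c, g z_c ≠ 0. b z := (φ (ν (χ.symm z))).1 is holomorphic near z_c with values in D (φ ∈ Charts, ν ContMDiff,
  `contMDiffOn_of_mem_maximalAtlas`, `contMDiffOn_symm_of_mem_maximalAtlas`). So u (χ.symm z) = m log|z - z_c| + log nrm (b z) (g z), and
  `nrm_log` gives `LocForm` on a small ball (contained in χ.target).
-/

set_option autoImplicit false

open Set Filter Topology Metric
open scoped ContDiff Manifold

namespace Pool.Agent.Nef6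

open Pool.Agent.H.MP_e23cd6_ag.AB (Dom BaseAct)
open Pool.Agent.H.MP_e23cd6_ag.AK (TotAct TM)

/-- an invariant family of holomorphic linear forms -/
structure FormFam {n : ℕ} {Ω : Dom n} {Γ : Type} [Group Γ] (A : BaseAct Ω Γ) (Q : Type)
    [NormedAddCommGroup Q] [NormedSpace ℂ Q] where
  K : Γ → (Fin n → ℂ) → Q → Q
  K_inv : ∀ γ, ∀ b ∈ Ω.D, ∀ v, K γ⁻¹ (A.β γ b) (K γ b v) = v
  ι : Type
  ne : Nonempty ι
  f : ι → (Fin n → ℂ) → (Q →L[ℂ] ℂ)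
  holo : ∀ i, DifferentiableOn ℂ (f i) Ω.D
  bdd : ∀ S ⊆ Ω.D, IsCompact S → ∃ c : ℝ, ∀ i, ∀ b ∈ S, ‖f i b‖ ≤ c
  inv : ∀ i γ, ∃ j, ∀ b ∈ Ω.D, ∀ v, f j b v = f i (A.β γ b) (K γ b v)
  pos : ∀ b ∈ Ω.D, ∀ v, v ≠ 0 → ∃ i, f i b v ≠ 0

section nrm

variable {n : ℕ} {Ω : Dom n} {Γ : Type} [Group Γ] {A : BaseAct Ω Γ} {Q : Type}
  [NormedAddCommGroup Q] [NormedSpace ℂ Q]

/-- the supremum of the forms -/
noncomputable def FormFam.nrm (Φ : FormFam A Q) (b : Fin n → ℂ) (v : Q) : ℝ := ⨆ i, ‖Φ.f i b v‖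

theorem G_bddAbove (Φ : FormFam A Q) {b : Fin n → ℂ} (hb : b ∈ Ω.D) (v : Q) :
    BddAbove (range fun i => ‖Φ.f i b v‖) := by
  obtain ⟨c, hc⟩ := Φ.bdd {b} (singleton_subset_iff.2 hb) isCompact_singleton
  refine ⟨c * ‖v‖, ?_⟩
  rintro _ ⟨i, rfl⟩
  exact ((Φ.f i b).le_opNorm v).trans
    (mul_le_mul_of_nonneg_right (hc i b (mem_singleton b)) (norm_nonneg v))

theorem nrm_smul (Φ : FormFam A Q) (b : Fin n → ℂ) (c : ℂ) (v : Q) :
    Φ.nrm b (c • v) = ‖c‖ * Φ.nrm b v := by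
  unfold FormFam.nrm
  rw [Real.mul_iSup_of_nonneg (norm_nonneg c)]
  congr 1
  ext i
  rw [map_smul, norm_smul]

theorem nrm_pos (Φ : FormFam A Q) {b : Fin n → ℂ} (hb : b ∈ Ω.D) {v : Q} (hv : v ≠ 0) :
    0 < Φ.nrm b v := by
  obtain ⟨i, hi⟩ := Φ.pos b hb v hv
  exact (norm_pos_iff.2 hi).trans_le (le_ciSup (G_bddAbove Φ hb v) i)

theorem G_nrm_le (Φ : FormFam A Q) (γ : Γ) {b : Fin n → ℂ} (hb : b ∈ Ω.D) (v : Q) :
    Φ.nrm (A.β γ b) (Φ.K γ b v) ≤ Φ.nrm b v := by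
  have := Φ.ne
  refine ciSup_le fun i => ?_
  obtain ⟨j, hj⟩ := Φ.inv i γ
  rw [← hj b hb v]
  exact le_ciSup (G_bddAbove Φ hb v) j

theorem nrm_inv (Φ : FormFam A Q) (γ : Γ) {b : Fin n → ℂ} (hb : b ∈ Ω.D) (v : Q) :
    Φ.nrm (A.β γ b) (Φ.K γ b v) = Φ.nrm b v := by
  refine le_antisymm (G_nrm_le Φ γ hb v) ?_
  have h := G_nrm_le Φ γ⁻¹ (A.maps γ hb) (Φ.K γ b v)
  rw [A.inv_left γ hb, Φ.K_inv γ b hb v] at h
  exact h

theorem nrm_log (Φ : FormFam A Q) {a : ℂ} {R : ℝ} (hR : 0 < R) {b : ℂ → Fin n → ℂ} {g : ℂ → Q}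
    (hb : DifferentiableOn ℂ b (ball a R)) (hbD : ∀ z ∈ ball a R, b z ∈ Ω.D)
    (hg : DifferentiableOn ℂ g (ball a R)) (hg0 : g a ≠ 0) :
    ∃ ρ, 0 < ρ ∧ ρ ≤ R ∧ (∀ z ∈ ball a ρ, g z ≠ 0) ∧
      ContinuousOn (fun z => Real.log (Φ.nrm (b z) (g z))) (ball a ρ) ∧
      ∀ c r, 0 < r → closedBall c r ⊆ ball a ρ → Real.log (Φ.nrm (b c) (g c)) ≤
        Real.circleAverage (fun z => Real.log (Φ.nrm (b z) (g z))) c r := by
  have ha : a ∈ ball a R := mem_ball_self hR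
  have hgc : ContinuousAt g a := (hg.differentiableAt (isOpen_ball.mem_nhds ha)).continuousAt
  obtain ⟨ρ₁, hρ₁, h₁⟩ := Metric.eventually_nhds_iff.1 (hgc.eventually_ne hg0)
  have hρ : 0 < min ρ₁ (R / 2) := lt_min hρ₁ (half_pos hR)
  have hρR : min ρ₁ (R / 2) < R := (min_le_right _ _).trans_lt (half_lt_self hR)
  have hcl : closedBall a (min ρ₁ (R / 2)) ⊆ ball a R := closedBall_subset_ball hρR
  have hbl : ball a (min ρ₁ (R / 2)) ⊆ ball a R := ball_subset_ball hρR.le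
  have hne : ∀ z ∈ ball a (min ρ₁ (R / 2)), g z ≠ 0 := fun z hz =>
    h₁ ((mem_ball.1 hz).trans_le (min_le_left _ _))
  have hcomp : IsCompact (closedBall a (min ρ₁ (R / 2))) := isCompact_closedBall _ _
  obtain ⟨c₀, hc₀⟩ := Φ.bdd (b '' closedBall a (min ρ₁ (R / 2)))
    (by rintro _ ⟨z, hz, rfl⟩; exact hbD z (hcl hz))
    (hcomp.image_of_continuousOn (hb.continuousOn.mono hcl))
  obtain ⟨c₁, hc₁⟩ := hcomp.exists_bound_of_continuousOn (hg.continuousOn.mono hcl)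
  have hdiff : ∀ i, DifferentiableOn ℂ (fun z => Φ.f i (b z) (g z)) (ball a (min ρ₁ (R / 2))) := by
    intro i
    have h := (Φ.holo i).comp (hb.mono hbl) (fun z hz => hbD z (hbl hz))
    exact h.clm_apply (hg.mono hbl)
  have hbound : ∀ i, ∀ z ∈ ball a (min ρ₁ (R / 2)), ‖Φ.f i (b z) (g z)‖ ≤ c₀ * c₁ := by
    intro i z hz
    have hz' := ball_subset_closedBall hz
    have h0 := hc₀ i (b z) (mem_image_of_mem b hz')
    refine ((Φ.f i (b z)).le_opNorm _).trans ?_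
    exact mul_le_mul h0 (hc₁ z hz') (norm_nonneg _) ((norm_nonneg _).trans h0)
  have hpos : ∀ z ∈ ball a (min ρ₁ (R / 2)), ∃ i, Φ.f i (b z) (g z) ≠ 0 := fun z hz =>
    Φ.pos (b z) (hbD z (hbl hz)) (g z) (hne z hz)
  have := Φ.ne
  exact ⟨_, hρ, hρR.le, hne, log_sup_cont hdiff hbound hpos,
    fun c r hr hcr => log_sup_sub hdiff hbound hpos hr hcr⟩

end nrm

section quot

variable {n kk : ℕ} {Ω : Dom n} {Γ : Type} [Group Γ]
variable {Y : Type} [TopologicalSpace Y] [ChartedSpace ((Fin n → ℂ) × (Fin kk → ℂ)) Y]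

/-- `φ` is a holomorphic chart which is a local inverse of `p` -/
def Good (Ω : Dom n) (p : (Fin n → ℂ) × (Fin kk → ℂ) → Y)
    (φ : OpenPartialHomeomorph Y ((Fin n → ℂ) × (Fin kk → ℂ))) : Prop :=
  φ ∈ Charts ((Fin n → ℂ) × (Fin kk → ℂ)) Y ∧ φ.target ⊆ TM Ω kk ∧ ∀ x ∈ φ.target, p x = φ.symm x

/-- `Y` is the quotient of the total space by the group, with projection `p` -/
structure IsQuot (A : TotAct Ω kk Γ) (p : (Fin n → ℂ) × (Fin kk → ℂ) → Y) : Prop where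
  surj : ∀ y, ∃ x ∈ TM Ω kk, p x = y
  rel : ∀ x ∈ TM Ω kk, ∀ x' ∈ TM Ω kk, p x = p x' ↔ ∃ γ, A.act γ x = x'
  chart : ∀ x ∈ TM Ω kk, ∃ φ, Good Ω p φ ∧ x ∈ φ.target

variable {A : TotAct Ω kk Γ} {p : (Fin n → ℂ) × (Fin kk → ℂ) → Y}

theorem good_exists (hp : IsQuot A p) (y : Y) : ∃ φ, Good Ω p φ ∧ y ∈ φ.source := by
  obtain ⟨x, hx, hxy⟩ := hp.surj y
  obtain ⟨φ, hφ, hxφ⟩ := hp.chart x hx
  refine ⟨φ, hφ, ?_⟩
  rw [← hxy, hφ.2.2 x hxφ]
  exact φ.map_target hxφ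

theorem good_trans (hp : IsQuot A p) {φ φ' : OpenPartialHomeomorph Y ((Fin n → ℂ) × (Fin kk → ℂ))}
    (hφ : Good Ω p φ) (hφ' : Good Ω p φ') {y : Y} (hy : y ∈ φ.source) (hy' : y ∈ φ'.source) :
    ∃ γ, A.act γ (φ y) = φ' y ∧ (φ' ∘ φ.symm) =ᶠ[𝓝 (φ y)] A.act γ := by
  have hx : φ y ∈ φ.target := φ.map_source hy
  have hx' : φ' y ∈ φ'.target := φ'.map_source hy'
  have hpx : p (φ y) = y := by rw [hφ.2.2 _ hx, φ.left_inv hy]
  have hpx' : p (φ' y) = y := by rw [hφ'.2.2 _ hx', φ'.left_inv hy']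
  obtain ⟨γ, hγ⟩ := (hp.rel _ (hφ.2.1 hx) _ (hφ'.2.1 hx')).1 (hpx.trans hpx'.symm)
  refine ⟨γ, hγ, ?_⟩
  have hTM : TM Ω kk ∈ 𝓝 (φ y) :=
    (Pool.Agent.H.MP_e23cd6_ag.AK.TM_open Ω kk).mem_nhds (hφ.2.1 hx)
  have hca : ContinuousAt (A.act γ) (φ y) := ((A.tholo γ).differentiableAt hTM).continuousAt
  have h1 : ∀ᶠ x in 𝓝 (φ y), x ∈ φ.target := φ.open_target.mem_nhds hx
  have h2 : ∀ᶠ x in 𝓝 (φ y), A.act γ x ∈ φ'.target := by
    refine hca.eventually_mem ?_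
    rw [hγ]
    exact φ'.open_target.mem_nhds hx'
  filter_upwards [h1, h2] with x hx1 hx2
  have h3 : p x = p (A.act γ x) := (hp.rel _ (hφ.2.1 hx1) _ (hφ'.2.1 hx2)).2 ⟨γ, rfl⟩
  rw [hφ.2.2 _ hx1, hφ'.2.2 _ hx2] at h3
  show φ' (φ.symm x) = A.act γ x
  rw [h3, φ'.right_inv hx2]

variable {Q : Type} [NormedAddCommGroup Q] [NormedSpace ℂ Q]

theorem fam_sum_le [CompleteSpace Q]
    [IsManifold 𝓘(ℂ, (Fin n → ℂ) × (Fin kk → ℂ)) ω Y] (hp : IsQuot A p)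
    (Φ : FormFam A.toBaseAct Q) (q : ((Fin n → ℂ) × (Fin kk → ℂ)) →L[ℂ] Q)
    {C : Type} [TopologicalSpace C] [ChartedSpace ℂ C] [IsManifold 𝓘(ℂ) ω C] [CompactSpace C]
    [T2Space C] {ν : C → Y} (hν : ContMDiff 𝓘(ℂ) 𝓘(ℂ, (Fin n → ℂ) × (Fin kk → ℂ)) ω ν)
    {σ : OpenPartialHomeomorph Y ((Fin n → ℂ) × (Fin kk → ℂ)) → C → (Fin n → ℂ) × (Fin kk → ℂ)}
    (hσ : ∀ φ ∈ Charts ((Fin n → ℂ) × (Fin kk → ℂ)) Y, ∀ ψ ∈ Charts ((Fin n → ℂ) × (Fin kk → ℂ)) Y,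
      ∀ c, ν c ∈ φ.source → ν c ∈ ψ.source → σ ψ c = fderiv ℂ (ψ ∘ φ.symm) (φ (ν c)) (σ φ c))
    (hK : ∀ c : C, ∀ᶠ c' in 𝓝[≠] c, ∀ φ, Good Ω p φ → ν c' ∈ φ.source → ∀ γ,
      q (fderiv ℂ (A.act γ) (φ (ν c')) (σ φ c')) = Φ.K γ (φ (ν c')).1 (q (σ φ c')))
    {m : C → ℤ} (hm : ∀ c, ∃ φ, Good Ω p φ ∧ ν c ∈ φ.source ∧
      MeromorphicAt (fun z => q (σ φ ((chartAt ℂ c).symm z))) (chartAt ℂ c c) ∧
      meromorphicOrderAt (fun z => q (σ φ ((chartAt ℂ c).symm z))) (chartAt ℂ c c) = m c) :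
    (Function.support m).Finite ∧ ∑ᶠ c, m c ≤ 0 := by
  choose ch hch1 hch2 using fun c => good_exists hp (ν c)
  have key : LogForm (fun c => Real.log (Φ.nrm ((ch c) (ν c)).1 (q (σ (ch c) c)))) m := by
    intro c
    obtain ⟨φ, hφ, hνφ, hmero, hord⟩ := hm c
    obtain ⟨g, hg, hg0, hgeq⟩ := (meromorphicOrderAt_eq_int_iff hmero).1 hord
    have hcs : c ∈ (chartAt ℂ c).source := mem_chart_source ℂ c
    have hct : chartAt ℂ c c ∈ (chartAt ℂ c).target := mem_chart_target ℂ c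
    have hsymm : ContinuousAt (chartAt ℂ c).symm (chartAt ℂ c c) :=
      (chartAt ℂ c).symm.continuousAt hct
    have hsc : (chartAt ℂ c).symm (chartAt ℂ c c) = c := (chartAt ℂ c).left_inv hcs
    -- the smooth part
    have hT : ∀ᶠ z in 𝓝 (chartAt ℂ c c), z ∈ (chartAt ℂ c).target :=
      (chartAt ℂ c).open_target.mem_nhds hct
    have hS : ∀ᶠ z in 𝓝 (chartAt ℂ c c), ν ((chartAt ℂ c).symm z) ∈ φ.source := by
      have h1 : ContinuousAt (fun z => ν ((chartAt ℂ c).symm z)) (chartAt ℂ c c) := by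
        refine ContinuousAt.comp' ?_ hsymm
        exact hν.continuous.continuousAt
      refine h1.eventually_mem ?_
      rw [hsc]
      exact φ.open_source.mem_nhds hνφ
    have hga : ∀ᶠ z in 𝓝 (chartAt ℂ c c), AnalyticAt ℂ g z := hg.eventually_analyticAt
    have hKz : ∀ᶠ z in 𝓝[≠] (chartAt ℂ c c), ∀ φ, Good Ω p φ → ν ((chartAt ℂ c).symm z) ∈ φ.source →
        ∀ γ, q (fderiv ℂ (A.act γ) (φ (ν ((chartAt ℂ c).symm z))) (σ φ ((chartAt ℂ c).symm z))) =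
          Φ.K γ (φ (ν ((chartAt ℂ c).symm z))).1 (q (σ φ ((chartAt ℂ c).symm z))) := by
      have h1 : Tendsto (chartAt ℂ c).symm (𝓝[≠] (chartAt ℂ c c)) (𝓝[≠] c) := by
        refine tendsto_nhdsWithin_iff.2 ⟨?_, ?_⟩
        · have h2 := hsymm.tendsto
          rw [hsc] at h2
          exact h2.mono_left nhdsWithin_le_nhds
        · filter_upwards [nhdsWithin_le_nhds hT, self_mem_nhdsWithin] with z hz hz'
          intro h2
          apply hz'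
          have h3 : (chartAt ℂ c).symm z = c := h2
          have h4 := (chartAt ℂ c).right_inv hz
          rw [h3] at h4
          exact h4.symm
      exact h1.eventually (hK c)
    obtain ⟨R, hR, hball⟩ := Metric.eventually_nhds_iff_ball.1
      ((hT.and (hS.and hga)).and (eventually_nhdsWithin_iff.1 (hKz.and hgeq)))
    have hsub : ball (chartAt ℂ c c) R ⊆ (chartAt ℂ c).target := fun z hz => (hball z hz).1.1
    have hbm : ContMDiffOn 𝓘(ℂ) 𝓘(ℂ, (Fin n → ℂ) × (Fin kk → ℂ)) ω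
        (fun z => φ (ν ((chartAt ℂ c).symm z))) (ball (chartAt ℂ c c) R) := by
      have h1 : ContMDiffOn 𝓘(ℂ) 𝓘(ℂ) ω (chartAt ℂ c).symm (ball (chartAt ℂ c c) R) :=
        (contMDiffOn_symm_of_mem_maximalAtlas
          (IsManifold.chart_mem_maximalAtlas (I := 𝓘(ℂ)) (n := ω) c)).mono hsub
      have h2 : ContMDiffOn 𝓘(ℂ) 𝓘(ℂ, (Fin n → ℂ) × (Fin kk → ℂ)) ω
          (fun z => ν ((chartAt ℂ c).symm z)) (ball (chartAt ℂ c c) R) := hν.comp_contMDiffOn h1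
      have h3 : ContMDiffOn 𝓘(ℂ, (Fin n → ℂ) × (Fin kk → ℂ)) 𝓘(ℂ, (Fin n → ℂ) × (Fin kk → ℂ)) ω
          φ φ.source := contMDiffOn_of_mem_maximalAtlas hφ.1
      exact h3.comp h2 fun z hz => (hball z hz).1.2.1
    have hbd : DifferentiableOn ℂ (fun z => (φ (ν ((chartAt ℂ c).symm z))).1)
        (ball (chartAt ℂ c c) R) := by
      have h1 := (contMDiffOn_iff_contDiffOn.1 hbm).differentiableOn (by simp)
      exact h1.fst
    have hbD : ∀ z ∈ ball (chartAt ℂ c c) R, (φ (ν ((chartAt ℂ c).symm z))).1 ∈ Ω.D := fun z hz =>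
      (hφ.2.1 (φ.map_source (hball z hz).1.2.1)).1
    have hgd : DifferentiableOn ℂ g (ball (chartAt ℂ c c) R) := fun z hz =>
      (hball z hz).1.2.2.differentiableAt.differentiableWithinAt
    obtain ⟨ρ, hρ, hρR, hgne, hcont, hsubm⟩ := nrm_log Φ hR hbd hbD hgd hg0
    refine ⟨ρ, hρ, (ball_subset_ball hρR).trans hsub, _, hcont, hsubm, ?_⟩
    intro z hz hzc
    have hzR := ball_subset_ball hρR hz
    obtain ⟨⟨hzT, hzS, -⟩, h4⟩ := hball z hzR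
    obtain ⟨h5, h6⟩ := h4 hzc
    obtain ⟨γ, hγ, hev⟩ := good_trans hp hφ (hch1 ((chartAt ℂ c).symm z)) hzS
      (hch2 ((chartAt ℂ c).symm z))
    have hxD : (φ (ν ((chartAt ℂ c).symm z))).1 ∈ Ω.D := hbD z hzR
    have hxT : φ (ν ((chartAt ℂ c).symm z)) ∈ TM Ω kk := hφ.2.1 (φ.map_source hzS)
    have h7 : q (σ (ch ((chartAt ℂ c).symm z)) ((chartAt ℂ c).symm z)) =
        Φ.K γ (φ (ν ((chartAt ℂ c).symm z))).1 (q (σ φ ((chartAt ℂ c).symm z))) := by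
      rw [hσ φ hφ.1 _ (hch1 _).1 _ hzS (hch2 _), hev.fderiv_eq]
      exact h5 φ hφ hzS γ
    have h8 : ((ch ((chartAt ℂ c).symm z)) (ν ((chartAt ℂ c).symm z))).1 =
        A.β γ (φ (ν ((chartAt ℂ c).symm z))).1 := by
      rw [← hγ, A.fst γ _ hxT]
    show Real.log (Φ.nrm ((ch ((chartAt ℂ c).symm z)) (ν ((chartAt ℂ c).symm z))).1
      (q (σ (ch ((chartAt ℂ c).symm z)) ((chartAt ℂ c).symm z)))) = _
    have hz0 : ‖z - chartAt ℂ c c‖ ≠ 0 := norm_ne_zero_iff.2 (sub_ne_zero.2 hzc)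
    rw [h7, h8, nrm_inv Φ γ hxD, h6, nrm_smul, norm_zpow,
      Real.log_mul (zpow_ne_zero _ hz0) (nrm_pos Φ hxD (hgne z hz)).ne', Real.log_zpow]
  exact sum_le_zero key

end quot

end Pool.Agent.Nef6
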