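import Pool.Agent.H.MP_e23cd6_ag.AB.G7a

/-!
MP_6a1d6a_ag, module K1: the Laplacian of functions on ℂ and circle averages.

* `lap_congr`, `lap_const`, `lap_cont`, `lap_tsupport`, `lap_sum`: easy.
* `lap_comp`: from `lev_comp` (with V = ℂ, v = w = 1): lev (φ ∘ g) z 1 1 = lev φ (g z) g'(z) g'(z), and
  D²φ(a,a) + D²φ(ia,ia) = |a|² (D²φ(1,1) + D²φ(i,i)) by real bilinearity and symmetry (a = x + iy, ia = -y + ix).
* `lap_lim`: second order Taylor with uniform remainder. D²η is uniformly continuous (continuous with compact support,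
  `Continuous.uniformContinuous_of_hasCompactSupport` or `HasCompactSupport.uniformContinuous_of_continuous`): given ε take δ such
  that ‖D²η(x) - D²η(y)‖ ≤ ε/2 for ‖x - y‖ < δ. For |v| = 1 the function f(t) = η(z + t v) - η z - t Dη(z) v - (t²/2) D²η(z)(v,v)
  has f(0) = f'(0) = 0, |f''(t)| ≤ ε/2 for 0 ≤ t < δ, so |f(r)| ≤ (ε/2) r²/2 ≤ (ε/4) r². Average over v = e^{iθ}
  (θ in [0, 2π]): the average of Dη(z) v is 0, the average of D²η(z)(v,v) is (1/2) lap η z
  (v = cos θ + i sin θ; ∫cos² = ∫sin² = π, ∫ sin cos = 0). So |A_r η(z) - η(z) - (r²/4) lap η z| ≤ (ε/4) r².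
  See also `circle_lev` in AB/G7a.lean (pointwise version of the same computation, its proof can be adapted: only
  `G7a_taylor` has to be replaced by a uniform version).
-/

open Set Filter Topology Metric MeasureTheory
open scoped ContDiff

namespace Pool.Agent.Nef6

/-- the Laplacian of a real function on ℂ -/
noncomputable def lap (f : ℂ → ℝ) (z : ℂ) : ℝ :=
  fderiv ℝ (fderiv ℝ f) z 1 1 + fderiv ℝ (fderiv ℝ f) z Complex.I Complex.I

theorem lap_congr {f g : ℂ → ℝ} {z : ℂ} (h : f =ᶠ[𝓝 z] g) : lap f z = lap g z := by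
  have h1 : fderiv ℝ (fderiv ℝ f) z = fderiv ℝ (fderiv ℝ g) z := h.fderiv.fderiv_eq
  simp only [lap, h1]

theorem lap_const (c : ℝ) (z : ℂ) : lap (fun _ => c) z = 0 := by
  have h1 : fderiv ℝ (fun _ : ℂ => c) = fun _ => 0 := by
    funext y
    simp
  have h2 : fderiv ℝ (fderiv ℝ (fun _ : ℂ => c)) z = 0 := by
    rw [h1]
    simp
  simp [lap]

theorem lap_cont {U : Set ℂ} (hU : IsOpen U) {f : ℂ → ℝ} (hf : ContDiffOn ℝ ∞ f U) :
    ContinuousOn (lap f) U := by
  intro z hz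
  have h0 : ContDiffAt ℝ 2 f z :=
    (hf.contDiffAt (hU.mem_nhds hz)).of_le (by norm_cast)
  have h1 : ContDiffAt ℝ 1 (fderiv ℝ f) z := h0.fderiv_right (m := 1) (by norm_num)
  have h2 : ContDiffAt ℝ 0 (fderiv ℝ (fderiv ℝ f)) z := h1.fderiv_right (m := 0) (by norm_num)
  have h3 : ContinuousAt (fderiv ℝ (fderiv ℝ f)) z := h2.continuousAt
  have h4 : ContinuousAt (lap f) z := by
    unfold lap
    fun_prop
  exact h4.continuousWithinAt

/-- the Laplacian vanishes off the support -/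
theorem lap_off {f : ℂ → ℝ} {z : ℂ} (hz : z ∉ tsupport f) : lap f z = 0 := by
  have h : f =ᶠ[𝓝 z] fun _ => 0 := notMem_tsupport_iff_eventuallyEq.1 hz
  rw [lap_congr h, lap_const]

theorem K1_add {f g : ℂ → ℝ} {z : ℂ} (hf : ContDiffAt ℝ 2 f z) (hg : ContDiffAt ℝ 2 g z) :
    lap (fun y => f y + g y) z = lap f z + lap g z := by
  have h1 : fderiv ℝ (fun y => f y + g y) =ᶠ[𝓝 z] fun y => fderiv ℝ f y + fderiv ℝ g y := by
    filter_upwards [Pool.Agent.H.MP_e23cd6_ag.AB.G5a_ev hf,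
      Pool.Agent.H.MP_e23cd6_ag.AB.G5a_ev hg] with y h1 h2
    exact fderiv_fun_add h1 h2
  have h2 : fderiv ℝ (fderiv ℝ (fun y => f y + g y)) z =
      fderiv ℝ (fderiv ℝ f) z + fderiv ℝ (fderiv ℝ g) z := by
    rw [h1.fderiv_eq]
    exact fderiv_fun_add (Pool.Agent.H.MP_e23cd6_ag.AB.G5a_diff hf)
      (Pool.Agent.H.MP_e23cd6_ag.AB.G5a_diff hg)
  simp only [lap, h2, add_apply]
  ring

theorem lap_sum {ι : Type*} (s : Finset ι) {f : ι → ℂ → ℝ} {z : ℂ}
    (hf : ∀ i ∈ s, ContDiffAt ℝ ∞ (f i) z) :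
    lap (fun y => ∑ i ∈ s, f i y) z = ∑ i ∈ s, lap (f i) z := by
  classical
  induction s using Finset.induction_on with
  | empty => simp [lap_const]
  | insert a s ha ih =>
    have h1 : (fun y => ∑ i ∈ insert a s, f i y) = fun y => f a y + ∑ i ∈ s, f i y := by
      funext y
      rw [Finset.sum_insert ha]
    have h2 : ContDiffAt ℝ 2 (f a) z :=
      (hf a (Finset.mem_insert_self a s)).of_le (by norm_cast)
    have h3 : ContDiffAt ℝ 2 (fun y => ∑ i ∈ s, f i y) z :=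
      ContDiffAt.sum fun i hi => (hf i (Finset.mem_insert_of_mem hi)).of_le (by norm_cast)
    rw [h1, K1_add h2 h3, Finset.sum_insert ha, ih fun i hi => hf i (Finset.mem_insert_of_mem hi)]

theorem lap_comp {f : ℂ → ℝ} {g : ℂ → ℂ} {U : Set ℂ} (hU : IsOpen U) (hg : DifferentiableOn ℂ g U)
    {z : ℂ} (hz : z ∈ U) (hf : ContDiffAt ℝ ∞ f (g z)) :
    lap (fun y => f (g y)) z = ‖deriv g z‖ ^ 2 * lap f (g z) := by
  have hf2 : ContDiffAt ℝ 2 f (g z) := hf.of_le (by norm_cast)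
  have hsym : ∀ v w, fderiv ℝ (fderiv ℝ f) (g z) v w = fderiv ℝ (fderiv ℝ f) (g z) w v :=
    fun v w => hf2.isSymmSndFDerivAt (by simp) v w
  have h1 : ∀ a : ℂ, fderiv ℂ g z a = a * deriv g z := fun a => by
    rw [← fderiv_apply_one_eq_deriv]
    simp
  have h2 : fderiv ℂ (fderiv ℂ g) z Complex.I Complex.I =
      -(fderiv ℂ (fderiv ℂ g) z 1 1) := by
    have h3 : fderiv ℂ (fderiv ℂ g) z (Complex.I • (1 : ℂ)) (Complex.I • (1 : ℂ)) =
        Complex.I • Complex.I • fderiv ℂ (fderiv ℂ g) z 1 1 := by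
      simp only [map_smul, smul_apply]
    rw [smul_smul, Complex.I_mul_I] at h3
    simpa using h3
  unfold lap
  rw [Pool.Agent.H.MP_e23cd6_ag.AB.G5a_snd hU hg hz hf2 1 1,
    Pool.Agent.H.MP_e23cd6_ag.AB.G5a_snd hU hg hz hf2 Complex.I Complex.I, h1, h1, h2, map_neg,
    one_mul]
  set B := fderiv ℝ (fderiv ℝ f) (g z) with hB
  set c := deriv g z with hc
  have e1 : c = (c.re : ℝ) • (1 : ℂ) + (c.im : ℝ) • Complex.I := by
    apply Complex.ext <;> simp
  have e2 : Complex.I * c = (-c.im : ℝ) • (1 : ℂ) + (c.re : ℝ) • Complex.I := by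
    apply Complex.ext <;> simp
  have e3 : ‖c‖ ^ 2 = c.re ^ 2 + c.im ^ 2 := by
    rw [← Complex.normSq_eq_norm_sq, Complex.normSq_apply]
    ring
  rw [e3, e2]
  generalize c.re = x at *
  generalize c.im = y at *
  rw [e1]
  simp only [map_add, map_smul, add_apply, smul_apply,
    smul_eq_mul, hsym Complex.I 1]
  ring

theorem K1_uc {F : Type*} [NormedAddCommGroup F] {f : ℂ → F} (hf : Continuous f)
    (hc : HasCompactSupport f) {ε : ℝ} (hε : 0 < ε) :
    ∃ δ > 0, ∀ {x y : ℂ}, dist x y < δ → dist (f x) (f y) < ε :=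
  Metric.uniformContinuous_iff.1 (hc.uniformContinuous_of_continuous hf) ε hε

/-- second order Taylor expansion with a uniform remainder -/
theorem K1_taylor {η : ℂ → ℝ} (hη : ContDiff ℝ ∞ η) (hc : HasCompactSupport η) {ε : ℝ}
    (hε : 0 < ε) : ∃ δ > 0, ∀ z y : ℂ, ‖y‖ < δ →
      |η (z + y) - η z - (fderiv ℝ η z y + 1 / 2 * fderiv ℝ (fderiv ℝ η) z y y)| ≤
        ε * ‖y‖ ^ 2 := by
  have h2 : ContDiff ℝ 2 η := hη.of_le (by norm_cast)
  have h1 : ContDiff ℝ 1 (fderiv ℝ η) := h2.fderiv_right (m := 1) (by norm_num)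
  have h0 : ContDiff ℝ 0 (fderiv ℝ (fderiv ℝ η)) := h1.fderiv_right (m := 0) (by norm_num)
  have hcs : HasCompactSupport (fderiv ℝ (fderiv ℝ η)) :=
    HasCompactSupport.fderiv ℝ (HasCompactSupport.fderiv ℝ hc)
  obtain ⟨δ, hδ, h3⟩ := K1_uc (F := ℂ →L[ℝ] ℂ →L[ℝ] ℝ) h0.continuous hcs hε
  have hsym : ∀ z v w, fderiv ℝ (fderiv ℝ η) z v w = fderiv ℝ (fderiv ℝ η) z w v := fun z v w =>
    (h2.contDiffAt (x := z)).isSymmSndFDerivAt (by simp) v w
  refine ⟨δ, hδ, fun x y hy => ?_⟩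
  have h4 : ∀ z ∈ closedBall (0 : ℂ) ‖y‖,
      ‖fderiv ℝ η (x + z) - fderiv ℝ η x - fderiv ℝ (fderiv ℝ η) x z‖ ≤ ε * ‖z‖ := by
    intro z hz
    have hz' : ‖z‖ ≤ ‖y‖ := mem_closedBall_zero_iff.1 hz
    have h5 := (convex_closedBall x ‖z‖).norm_image_sub_le_of_norm_hasFDerivWithin_le'
      (f := fderiv ℝ η) (f' := fun w => fderiv ℝ (fderiv ℝ η) w) (φ := fderiv ℝ (fderiv ℝ η) x)
      (C := ε) (x := x) (y := x + z)
      (fun w _ => ((h1.differentiable (by norm_num)) w).hasFDerivAt.hasFDerivWithinAt)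
      (fun w hw => ?_) (mem_closedBall_self (norm_nonneg z)) (by simp)
    · simpa using h5
    · have h6 : dist w x < δ := lt_of_le_of_lt (mem_closedBall.1 hw) (lt_of_le_of_lt hz' hy)
      have h7 := (h3 h6).le
      rwa [dist_eq_norm] at h7
  have hg : ∀ z : ℂ, HasFDerivAt (fun z : ℂ => η (x + z) - η x -
      (fderiv ℝ η x z + 1 / 2 * fderiv ℝ (fderiv ℝ η) x z z))
      (fderiv ℝ η (x + z) - fderiv ℝ η x - fderiv ℝ (fderiv ℝ η) x z) z := by
    intro z
    have e1 : HasFDerivAt (fun z : ℂ => η (x + z)) ((fderiv ℝ η (x + z)).comp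
        (ContinuousLinearMap.id ℝ ℂ)) z :=
      ((h2.differentiable two_ne_zero) (x + z)).hasFDerivAt.comp z
        ((hasFDerivAt_id z).const_add x)
    have e2 := (fderiv ℝ η x).hasFDerivAt (x := z)
    have e3 := ((fderiv ℝ (fderiv ℝ η) x).hasFDerivAt (x := z)).clm_apply (hasFDerivAt_id z)
    refine ((e1.sub_const (η x)).sub (e2.add (e3.const_mul (1 / 2 : ℝ)))).congr_fderiv ?_
    ext w
    simp [hsym x w z]
    ring
  have key := (convex_closedBall (0 : ℂ) ‖y‖).norm_image_sub_le_of_norm_hasFDerivWithin_le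
    (C := ε * ‖y‖) (fun z _ => (hg z).hasFDerivWithinAt) (fun z hz => ?_)
    (mem_closedBall_self (norm_nonneg y)) (mem_closedBall_zero_iff.2 le_rfl)
  · simp only [map_zero, mul_zero, add_zero, sub_self, sub_zero, Real.norm_eq_abs] at key
    refine key.trans (le_of_eq ?_)
    ring
  · refine (h4 z hz).trans ?_
    exact mul_le_mul_of_nonneg_left (mem_closedBall_zero_iff.1 hz) hε.le

theorem lap_lim {η : ℂ → ℝ} (hη : ContDiff ℝ ∞ η) (hc : HasCompactSupport η) {ε : ℝ} (hε : 0 < ε) :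
    ∃ δ > 0, ∀ r : ℝ, 0 < r → r < δ → ∀ z : ℂ,
      |4 / r ^ 2 * (Real.circleAverage η z r - η z) - lap η z| ≤ ε := by
  obtain ⟨δ, hδ, h1⟩ := K1_taylor hη hc (show 0 < ε / 4 by positivity)
  refine ⟨δ, hδ, fun r hr hrδ z => ?_⟩
  have hηc : Continuous η := hη.continuous
  have e0 : Real.circleAverage η z r = Real.circleAverage (fun w : ℂ => η (z + w • (1 : ℂ))) 0 r := by
    rw [Real.circleAverage_def, Real.circleAverage_def]
    congr 1
    refine intervalIntegral.integral_congr fun θ _ => ?_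
    simp [circleMap]
  have c12 : CircleIntegrable (fun w : ℂ => η (z + w • (1 : ℂ)) - η z) 0 r :=
    ContinuousOn.circleIntegrable' (Continuous.continuousOn (by fun_prop))
  have c1 : CircleIntegrable (fun w : ℂ => η (z + w • (1 : ℂ))) 0 r :=
    ContinuousOn.circleIntegrable' (Continuous.continuousOn (by fun_prop))
  have c2 : CircleIntegrable (fun _ : ℂ => η z) 0 r :=
    ContinuousOn.circleIntegrable' (Continuous.continuousOn (by fun_prop))
  have c3 : CircleIntegrable (fun w : ℂ => fderiv ℝ η z (w • (1 : ℂ)) +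
      1 / 2 * fderiv ℝ (fderiv ℝ η) z (w • (1 : ℂ)) (w • (1 : ℂ))) 0 r :=
    ContinuousOn.circleIntegrable' (Continuous.continuousOn (by fun_prop))
  have e1 : Real.circleAverage (fun w : ℂ => η (z + w • (1 : ℂ)) - η z -
      (fderiv ℝ η z (w • (1 : ℂ)) +
      1 / 2 * fderiv ℝ (fderiv ℝ η) z (w • (1 : ℂ)) (w • (1 : ℂ)))) 0 r =
      Real.circleAverage (fun w : ℂ => η (z + w • (1 : ℂ))) 0 r - η z -
        r ^ 2 * (1 / 4 * (fderiv ℝ (fderiv ℝ η) z 1 1 +
          fderiv ℝ (fderiv ℝ η) z (Complex.I • (1 : ℂ)) (Complex.I • (1 : ℂ)))) := by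
    rw [Real.circleAverage_fun_sub c12 c3, Real.circleAverage_fun_sub c1 c2,
      Real.circleAverage_const, Pool.Agent.H.MP_e23cd6_ag.AB.G7a_quad]
  have c4 : CircleIntegrable (fun w : ℂ => η (z + w • (1 : ℂ)) - η z -
      (fderiv ℝ η z (w • (1 : ℂ)) +
      1 / 2 * fderiv ℝ (fderiv ℝ η) z (w • (1 : ℂ)) (w • (1 : ℂ)))) 0 r :=
    ContinuousOn.circleIntegrable' (Continuous.continuousOn (by fun_prop))
  have hb : |Real.circleAverage (fun w : ℂ => η (z + w • (1 : ℂ)) - η z -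
      (fderiv ℝ η z (w • (1 : ℂ)) +
      1 / 2 * fderiv ℝ (fderiv ℝ η) z (w • (1 : ℂ)) (w • (1 : ℂ)))) 0 r| ≤ ε / 4 * r ^ 2 := by
    refine Real.abs_circleAverage_le_circleAverage_abs.trans ?_
    refine Real.circleAverage_mono_on_of_le_circle ?_ fun w hw => ?_
    · exact c4.abs
    · have hw' : ‖w‖ = r := by
        rw [mem_sphere_zero_iff_norm] at hw
        rw [hw, abs_of_pos hr]
      have h3 := h1 z (w • (1 : ℂ)) (by simpa [hw'] using hrδ)
      have h4 : ‖w • (1 : ℂ)‖ = r := by simpa using hw'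
      rw [h4] at h3
      simpa using h3
  rw [e1, ← e0] at hb
  have hl : lap η z = fderiv ℝ (fderiv ℝ η) z 1 1 +
          fderiv ℝ (fderiv ℝ η) z (Complex.I • (1 : ℂ)) (Complex.I • (1 : ℂ)) := by
    simp [lap]
  rw [← hl] at hb
  have hr2 : 0 < r ^ 2 := by positivity
  have e5 : 4 / r ^ 2 * (Real.circleAverage η z r - η z) - lap η z =
      4 / r ^ 2 * (Real.circleAverage η z r - η z - r ^ 2 * (1 / 4 * lap η z)) := by
    field_simp
  rw [e5, abs_mul, abs_of_pos (by positivity)]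
  calc 4 / r ^ 2 * |Real.circleAverage η z r - η z - r ^ 2 * (1 / 4 * lap η z)|
      ≤ 4 / r ^ 2 * (ε / 4 * r ^ 2) := mul_le_mul_of_nonneg_left hb (by positivity)
    _ = ε := by field_simp

end Pool.Agent.Nef6
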