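import Mathlib

/-!
MP_6a1d6a_ag, module K2: Fubini for circle averages, and integrability of log on ℂ.

* `int_avg`: `circleAverage f z r = (2π)⁻¹ ∫_0^{2π} f (z + r e^{iθ}) dθ`. ∫_z W(z) A_r η(z) = (2π)⁻¹ ∫_θ ∫_z W(z) η(z + r e^{iθ})
  (Fubini, the integrand is bounded by |W(z)| sup|η| on ℂ × [0,2π]) = (2π)⁻¹ ∫_θ ∫_z W(z - r e^{iθ}) η(z) (translation
  invariance) = ∫_z η(z) (2π)⁻¹ ∫_θ W(z - r e^{iθ}) and z - r e^{iθ} = circleMap z (-r) θ, `circleAverage_neg_radius`.
  For the second use of Fubini: (θ, z) ↦ W(z - r e^{iθ}) η(z) is the composition of the integrable function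
  (θ, z) ↦ W(z) η(z + r e^{iθ}) with the measure preserving map (θ, z) ↦ (θ, z - r e^{iθ})
  (`MeasurePreserving.skew_product`), so it is integrable on [0,2π] × ℂ; this also gives the integrability of
  z ↦ A_r W(z) η(z) (`Integrable.integral_prod_right` and variants).
* `int_log`: ∫_{|y|<R} |log|y|| < ∞ (polar coordinates, or |log|y|| ≤ C (|y|^{-1/2} + |y|^{1/2}), or
  `integrable_fun_norm_addHaar`), then translate.
-/

open Set Filter Topology Metric MeasureTheory
open scoped ContDiff

namespace Pool.Agent.Nef6

/-- The shear `(θ, z) ↦ (θ, z - r e^{iθ})`. -/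
theorem K2_shear (ν : Measure ℝ) [SFinite ν] (r : ℝ) :
    MeasurePreserving (fun p : ℝ × ℂ => (p.1, circleMap p.2 (-r) p.1)) (ν.prod volume)
      (ν.prod volume) := by
  have hm : Measurable (Function.uncurry fun (θ : ℝ) (z : ℂ) => circleMap z (-r) θ) := by
    have : Continuous (Function.uncurry fun (θ : ℝ) (z : ℂ) => circleMap z (-r) θ) := by
      unfold Function.uncurry circleMap
      fun_prop
    exact this.measurable
  refine (MeasurePreserving.id ν).skew_product (g := fun θ z => circleMap z (-r) θ) hm ?_
  refine ae_of_all _ fun θ => ?_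
  have h : (fun z : ℂ => circleMap z (-r) θ) = fun z : ℂ => z + circleMap 0 (-r) θ := by
    funext z
    simp [circleMap]
  rw [h]
  exact (measurePreserving_add_right volume (circleMap 0 (-r) θ)).map_eq

theorem int_avg {W η : ℂ → ℝ} (hW : Integrable W) (hη : Continuous η) (hc : HasCompactSupport η)
    (r : ℝ) :
    Integrable (fun z => Real.circleAverage W z r * η z) ∧
    ∫ z, W z * Real.circleAverage η z r = ∫ z, Real.circleAverage W z r * η z := by
  set ν : Measure ℝ := volume.restrict (Ioc 0 (2 * Real.pi)) with hν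
  haveI : IsFiniteMeasure ν := by
    rw [hν]
    infer_instance
  have h2pi : (0 : ℝ) ≤ 2 * Real.pi := by positivity
  obtain ⟨C, hC⟩ := hη.bounded_above_of_compact_support hc
  -- the integrand
  set F : ℝ × ℂ → ℝ := fun p => W p.2 * η (circleMap p.2 r p.1) with hF
  have hcm : Continuous fun p : ℝ × ℂ => η (circleMap p.2 r p.1) := by
    refine hη.comp ?_
    unfold circleMap
    fun_prop
  have hWs : Integrable (fun p : ℝ × ℂ => W p.2) (ν.prod volume) := hW.comp_snd ν
  have hFi : Integrable F (ν.prod volume) :=
    hWs.mul_bdd (c := C) hcm.aestronglyMeasurable (ae_of_all _ fun p => hC _)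
  have hT := K2_shear ν r
  set G : ℝ × ℂ → ℝ := fun p => W (circleMap p.2 (-r) p.1) * η p.2 with hG
  have hGF : G = F ∘ fun p : ℝ × ℂ => (p.1, circleMap p.2 (-r) p.1) := by
    funext p
    simp only [hG, hF, Function.comp_apply]
    congr 2
    simp [circleMap]
  have hGi : Integrable G (ν.prod volume) := by
    rw [hGF]
    exact (hT.integrable_comp hFi.aestronglyMeasurable).2 hFi
  -- the two circle averages
  have hA : ∀ z : ℂ, W z * Real.circleAverage η z r =
      (2 * Real.pi)⁻¹ * ∫ θ, F (θ, z) ∂ν := by
    intro z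
    rw [Real.circleAverage_def, intervalIntegral.integral_of_le h2pi, smul_eq_mul, ← hν]
    simp only [hF]
    rw [integral_const_mul]
    ring
  have hB : ∀ z : ℂ, Real.circleAverage W z r * η z =
      (2 * Real.pi)⁻¹ * ∫ θ, G (θ, z) ∂ν := by
    intro z
    rw [← Real.circleAverage_neg_radius, Real.circleAverage_def,
      intervalIntegral.integral_of_le h2pi, smul_eq_mul, ← hν]
    simp only [hG]
    rw [integral_mul_const]
    ring
  constructor
  · have h := hGi.integral_prod_right
    have h2 := h.const_mul ((2 * Real.pi)⁻¹)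
    refine h2.congr (ae_of_all _ fun z => ?_)
    exact (hB z).symm
  · simp_rw [hA, hB]
    rw [integral_const_mul, integral_const_mul]
    congr 1
    rw [← integral_integral_swap (f := fun θ z => F (θ, z)) hFi,
      ← integral_integral_swap (f := fun θ z => G (θ, z)) hGi]
    congr 1
    funext θ
    have h1 : (fun z : ℂ => G (θ, z)) = fun z : ℂ => (fun w => F (θ, w)) (z + circleMap 0 (-r) θ) := by
      funext z
      have := congrFun hGF (θ, z)
      rw [this]
      simp [circleMap]
    rw [h1]
    exact (integral_add_right_eq_self (μ := (volume : Measure ℂ)) (fun w => F (θ, w)) _).symm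

theorem int_log (a : ℂ) (R : ℝ) : IntegrableOn (fun z : ℂ => Real.log ‖z - a‖) (ball a R) := by
  have h0 : IntegrableOn (fun z : ℂ => Real.log ‖z‖) (ball 0 R) := by
    rw [integrableOn_fun_norm_addHaar (μ := (volume : Measure ℂ)) (f := Real.log) (r := R)]
    have hc : Continuous fun y : ℝ => y ^ (Module.finrank ℝ ℂ - 1) • Real.log y := by
      have : (fun y : ℝ => y ^ (Module.finrank ℝ ℂ - 1) • Real.log y) =
          fun y => y * Real.log y := by
        funext y
        simp [Complex.finrank_real_complex]
      rw [this]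
      exact Real.continuous_mul_log
    exact (hc.integrableOn_Icc (a := 0) (b := R)).mono_set Ioo_subset_Icc_self
  have hpre : (fun z : ℂ => z - a) ⁻¹' (ball 0 R) = ball a R := by
    ext z
    simp [dist_eq_norm]
  have hmp : MeasurePreserving (fun z : ℂ => z - a) := measurePreserving_sub_right volume a
  have hemb : MeasurableEmbedding (fun z : ℂ => z - a) := measurableEmbedding_subRight a
  have := (hmp.integrableOn_comp_preimage hemb (f := fun z : ℂ => Real.log ‖z‖)
    (s := ball 0 R)).2 h0
  rw [hpre] at this
  exact this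

end Pool.Agent.Nef6
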