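import Pool.Agent.H.MP_6a1d6a_ag.K1
import Pool.Agent.H.MP_6a1d6a_ag.K2

/-!
MP_6a1d6a_ag, module K3: `∫ log|z - a| Δη = κ η(a)` with `κ > 0`, and `∫ w Δη ≥ 0` for functions with the sub-mean value property.

Write A_r f (z) = circleAverage f z r.

* `int_lap` (limit): for W integrable and η smooth with compact support, (4/r²) ∫ W (A_r η - η) → ∫ W Δη as r → 0+
  (`lap_lim`: the difference is at most ε ∫ |W|). By `int_avg`, ∫ W (A_r η - η) = ∫ (A_r W - W) η.
* `log_pot`. κ := 4 ∫_{|y|<1} -log|y| dy > 0 (integrand positive off 0 on the ball; integrable by `int_log`).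
  Let R0 > 0 with tsupport η ⊆ ball a R0, W := indicator (ball a (R0+2)) (log|z-a|), integrable. For 0 < r < 1 and z ∈ tsupport η
  the circle of radius r about z is inside ball a (R0+2), so A_r W (z) = log r + log⁺(r⁻¹|z-a|)
  (`circleAverage_log_norm_sub_const_eq_log_radius_add_posLog`, `circleAverage_congr_sphere`), and
  (A_r W - W)(z) = log r + log⁺(|z-a|/r) - log|z-a| = -log(|z-a|/r) if |z-a| < r (z ≠ a), and = 0 if |z-a| ≥ r. So
  (4/r²) ∫ (A_r W - W) η = (4/r²) ∫_{|z-a|<r} -log(|z-a|/r) η(z) dz = 4 ∫_{|y|<1} -log|y| η(a + r y) dy (substitution z = a + r y,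
  dz = r² dy: `Measure.integral_comp_smul`, `integral_add_left_eq_self` ...) → κ η(a) by uniform continuity (or dominated
  convergence). The limit is also ∫ W Δη = ∫ log|z-a| Δη (Δη vanishes off tsupport η).
* `int_sub`. Choose s > 0 with T := cthickening s (tsupport η) ⊆ ball c R compact. W := indicator T w, integrable (w is continuous
  on the compact T). For 0 < r < s and z ∈ tsupport η: closedBall z r ⊆ T, A_r W (z) = A_r w (z) ≥ w z = W z. So
  ∫ (A_r W - W) η ≥ 0 (integrand ≥ 0, being 0 off tsupport η), hence ∫ W Δη = lim (4/r²) ∫ (A_r W - W) η ≥ 0, and W = w on tsupport η.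
* `local_ineq`: u = m log|z-c| + w off c on the ball; u·g for g continuous with compact support in the ball is integrable
  (`int_log` and continuity of w on tsupport g; almost everywhere equality), and
  ∫ u Δη = m ∫ log|z-c| Δη + ∫ w Δη ≥ m κ η(c).
-/

open Set Filter Topology Metric MeasureTheory
open scoped ContDiff

namespace Pool.Agent.Nef6

theorem K3_lap_cont {η : ℂ → ℝ} (hη : ContDiff ℝ ∞ η) : Continuous (lap η) :=
  continuousOn_univ.1 (lap_cont isOpen_univ hη.contDiffOn)

theorem K3_lap_cs {η : ℂ → ℝ} (hc : HasCompactSupport η) : HasCompactSupport (lap η) :=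
  HasCompactSupport.intro hc (fun _ hx => lap_off hx)

theorem K3_bdd {g : ℂ → ℝ} (hg : Continuous g) (hc : HasCompactSupport g) :
    ∃ C : ℝ, 0 ≤ C ∧ ∀ z, |g z| ≤ C := by
  obtain ⟨C, hC⟩ := hc.exists_bound_of_continuous hg
  refine ⟨C, (norm_nonneg _).trans (hC 0), fun z => ?_⟩
  have := hC z
  rwa [Real.norm_eq_abs] at this

theorem K3_mul {W g : ℂ → ℝ} (hW : Integrable W) (hg : Continuous g) {C : ℝ}
    (hC : ∀ z, |g z| ≤ C) : Integrable (fun z => W z * g z) :=
  hW.mul_bdd (c := C) hg.aestronglyMeasurable (Eventually.of_forall fun z => by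
    rw [Real.norm_eq_abs]; exact hC z)

theorem K3_avg_cont {η : ℂ → ℝ} (hη : Continuous η) (r : ℝ) :
    Continuous (fun z => Real.circleAverage η z r) := by
  have h : Continuous (Function.uncurry fun (z : ℂ) (θ : ℝ) => η (circleMap z r θ)) := by
    have h : (Function.uncurry fun (z : ℂ) (θ : ℝ) => η (circleMap z r θ)) =
        fun p : ℂ × ℝ => η (p.1 + r * Complex.exp (p.2 * Complex.I)) := by
      ext p
      rfl
    rw [h]
    fun_prop
  have h0 : Continuous (fun z : ℂ => ∫ θ in (0 : ℝ)..2 * Real.pi, η (circleMap z r θ)) :=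
    intervalIntegral.continuous_parametric_intervalIntegral_of_continuous' h _ _
  exact continuous_const.mul h0

theorem K3_avg_bdd {η : ℂ → ℝ} {C : ℝ} (hC : ∀ z, |η z| ≤ C) (z : ℂ) (r : ℝ) :
    |Real.circleAverage η z r| ≤ C := by
  have h0 : 0 ≤ C := (abs_nonneg _).trans (hC 0)
  have h1 : ‖∫ θ in (0 : ℝ)..2 * Real.pi, η (circleMap z r θ)‖ ≤ C * |2 * Real.pi - 0| := by
    refine intervalIntegral.norm_integral_le_of_norm_le_const fun θ _ => ?_
    rw [Real.norm_eq_abs]
    exact hC _
  rw [Real.norm_eq_abs, sub_zero, abs_of_pos Real.two_pi_pos] at h1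
  rw [Real.circleAverage, smul_eq_mul, abs_mul, abs_of_pos (inv_pos.2 Real.two_pi_pos)]
  calc (2 * Real.pi)⁻¹ * |∫ θ in (0 : ℝ)..2 * Real.pi, η (circleMap z r θ)|
      ≤ (2 * Real.pi)⁻¹ * (C * (2 * Real.pi)) :=
        mul_le_mul_of_nonneg_left h1 (inv_nonneg.2 Real.two_pi_pos.le)
    _ = C := by
        field_simp

/-- `u` has the form `m log |z - c| + w` on the punctured ball about `c`, with `w` continuous on the ball and
satisfying the sub-mean value inequality -/
def LocForm (u : ℂ → ℝ) (c : ℂ) (R : ℝ) (m : ℤ) : Prop :=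
  ∃ w : ℂ → ℝ, ContinuousOn w (ball c R) ∧
    (∀ a r, 0 < r → closedBall a r ⊆ ball c R → w a ≤ Real.circleAverage w a r) ∧
    ∀ z ∈ ball c R, z ≠ c → u z = m * Real.log ‖z - c‖ + w z

theorem int_lap {W η : ℂ → ℝ} (hW : Integrable W) (hη : ContDiff ℝ ∞ η) (hc : HasCompactSupport η) :
    Tendsto (fun r : ℝ => 4 / r ^ 2 * ∫ z, (Real.circleAverage W z r - W z) * η z) (𝓝[>] 0)
      (𝓝 (∫ z, W z * lap η z)) := by
  have hηc : Continuous η := hη.continuous
  obtain ⟨C, hC0, hC⟩ := K3_bdd hηc hc
  obtain ⟨C', hC0', hC'⟩ := K3_bdd (K3_lap_cont hη) (K3_lap_cs hc)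
  have hWη := K3_mul hW hηc hC
  have hWl := K3_mul hW (K3_lap_cont hη) hC'
  have hWA : ∀ r : ℝ, Integrable (fun z => W z * Real.circleAverage η z r) := fun r =>
    K3_mul hW (K3_avg_cont hηc r) (fun z => K3_avg_bdd hC z r)
  have key : ∀ r : ℝ, ∫ z, (Real.circleAverage W z r - W z) * η z =
      ∫ z, W z * (Real.circleAverage η z r - η z) := by
    intro r
    obtain ⟨h1, h2⟩ := int_avg hW hηc hc r
    simp only [sub_mul, mul_sub]
    rw [integral_sub h1 hWη, integral_sub (hWA r) hWη, h2]
  rw [Metric.tendsto_nhdsWithin_nhds]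
  intro ε hε
  have hI : 0 ≤ ∫ z, |W z| := integral_nonneg fun z => abs_nonneg _
  obtain ⟨δ, hδ, h⟩ := lap_lim hη hc (ε := ε / ((∫ z, |W z|) + 1)) (by positivity)
  refine ⟨δ, hδ, fun {r} hr hr' => ?_⟩
  have hr0 : 0 < r := hr
  have hrδ : r < δ := by
    rw [Real.dist_eq, sub_zero, abs_of_pos hr0] at hr'
    exact hr'
  have h3 := h r hr0 hrδ
  rw [Real.dist_eq, key r, ← integral_const_mul, ← integral_sub]
  · have h4 : ∀ z, ‖4 / r ^ 2 * (W z * (Real.circleAverage η z r - η z)) - W z * lap η z‖ ≤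
        |W z| * (ε / ((∫ z, |W z|) + 1)) := by
      intro z
      have e : 4 / r ^ 2 * (W z * (Real.circleAverage η z r - η z)) - W z * lap η z =
          W z * (4 / r ^ 2 * (Real.circleAverage η z r - η z) - lap η z) := by ring
      rw [e, Real.norm_eq_abs, abs_mul]
      exact mul_le_mul_of_nonneg_left (h3 z) (abs_nonneg _)
    have h5 : |∫ z, (4 / r ^ 2 * (W z * (Real.circleAverage η z r - η z)) - W z * lap η z)| ≤
        ∫ z, |W z| * (ε / ((∫ z, |W z|) + 1)) := by
      rw [← Real.norm_eq_abs]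
      refine norm_integral_le_of_norm_le ?_ (Eventually.of_forall h4)
      exact hW.abs.mul_const _
    refine h5.trans_lt ?_
    rw [integral_mul_const, ← mul_div_assoc, div_lt_iff₀ (by positivity)]
    nlinarith
  · have h6 := (hWA r).sub hWη
    have h7 := h6.const_mul (4 / r ^ 2)
    refine h7.congr (Eventually.of_forall fun z => ?_)
    simp only [Pi.sub_apply]
    ring
  · exact hWl

/-- the constant (its value is `2π`) -/
noncomputable def kap : ℝ := 4 * ∫ y in ball (0 : ℂ) 1, -Real.log ‖y‖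

theorem K3_int0 : IntegrableOn (fun y : ℂ => -Real.log ‖y‖) (ball (0 : ℂ) 1) := by
  have h := (int_log 0 1).neg
  refine h.congr_fun_ae ?_
  filter_upwards with y
  simp

theorem kap_pos : 0 < kap := by
  unfold kap
  have h : 0 < ∫ y in ball (0 : ℂ) 1, -Real.log ‖y‖ := by
    rw [setIntegral_pos_iff_support_of_nonneg_ae ?_ K3_int0]
    · have h1 : ball (1 / 2 : ℂ) (1 / 4) ⊆
          Function.support (fun y : ℂ => -Real.log ‖y‖) ∩ ball (0 : ℂ) 1 := by
        intro y hy
        rw [mem_ball, dist_eq_norm] at hy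
        have hh : ‖(1 / 2 : ℂ)‖ = 1 / 2 := by norm_num
        have h2 : ‖y‖ < 3 / 4 := by
          calc ‖y‖ = ‖(y - 1 / 2) + 1 / 2‖ := by ring_nf
            _ ≤ ‖y - 1 / 2‖ + ‖(1 / 2 : ℂ)‖ := norm_add_le _ _
            _ < 3 / 4 := by rw [hh]; linarith
        have h3 : 1 / 4 < ‖y‖ := by
          have h4 : ‖(1 / 2 : ℂ)‖ ≤ ‖y - 1 / 2‖ + ‖y‖ := by
            calc ‖(1 / 2 : ℂ)‖ = ‖y - (y - 1 / 2)‖ := by ring_nf
              _ ≤ ‖y‖ + ‖y - 1 / 2‖ := norm_sub_le _ _
              _ = ‖y - 1 / 2‖ + ‖y‖ := add_comm _ _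
          rw [hh] at h4
          linarith
        constructor
        · rw [Function.mem_support]
          have h5 : Real.log ‖y‖ < 0 := Real.log_neg (by linarith) (by linarith)
          linarith
        · rw [mem_ball, dist_zero_right]
          linarith
      exact (measure_ball_pos volume _ (by norm_num)).trans_le (measure_mono h1)
    · refine (ae_restrict_iff' measurableSet_ball).2 (Eventually.of_forall fun y hy => ?_)
      rw [mem_ball, dist_zero_right] at hy
      show 0 ≤ -Real.log ‖y‖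
      have := Real.log_nonpos (norm_nonneg y) hy.le
      linarith
  linarith

theorem K3_tsupport_ball {η : ℂ → ℝ} (hc : HasCompactSupport η) (a : ℂ) :
    ∃ R0 : ℝ, 0 < R0 ∧ tsupport η ⊆ ball a R0 := by
  have hb : Bornology.IsBounded (tsupport η) := IsCompact.isBounded hc
  obtain ⟨R, hR⟩ := hb.subset_ball a
  exact ⟨max R 1, by positivity, hR.trans (ball_subset_ball (le_max_left _ _))⟩

theorem K3_scale (a : ℂ) {η : ℂ → ℝ} {r : ℝ} (hr : 0 < r) :
    4 / r ^ 2 * ∫ z, (ball a r).indicator (fun z => -Real.log (‖z - a‖ / r) * η z) z =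
      4 * ∫ y in ball (0 : ℂ) 1, -Real.log ‖y‖ * η (a + r • y) := by
  obtain ⟨H, hH⟩ : ∃ H : ℂ → ℝ,
    H = (ball a r).indicator (fun z => -Real.log (‖z - a‖ / r) * η z) := ⟨_, rfl⟩
  have h1 : ∫ y, H (a + r • y) = (r ^ 2)⁻¹ * ∫ z, H z := by
    have h2 := Measure.integral_comp_smul (volume : Measure ℂ) (fun x => H (a + x)) r
    rw [Complex.finrank_real_complex, integral_add_left_eq_self, smul_eq_mul,
      abs_of_pos (by positivity)] at h2
    exact h2
  have h3 : ∀ y, H (a + r • y) =
      (ball (0 : ℂ) 1).indicator (fun y => -Real.log ‖y‖ * η (a + r • y)) y := by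
    intro y
    have h4 : ‖(a + r • y) - a‖ = r * ‖y‖ := by
      rw [add_sub_cancel_left, norm_smul, Real.norm_eq_abs, abs_of_pos hr]
    rw [hH]
    by_cases hy : y ∈ ball (0 : ℂ) 1
    · have hy' : a + r • y ∈ ball a r := by
        rw [mem_ball, dist_eq_norm, h4]
        rw [mem_ball, dist_zero_right] at hy
        nlinarith
      rw [indicator_of_mem hy', indicator_of_mem hy, h4, mul_div_cancel_left₀ _ hr.ne']
    · have hy' : a + r • y ∉ ball a r := by
        rw [mem_ball, dist_eq_norm, h4]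
        rw [mem_ball, dist_zero_right] at hy
        intro h5
        exact hy (by nlinarith)
      rw [indicator_of_notMem hy', indicator_of_notMem hy]
  rw [← hH]
  have h6 : ∫ z, H z = r ^ 2 * ∫ y, H (a + r • y) := by
    rw [h1, ← mul_assoc, mul_inv_cancel₀ (by positivity), one_mul]
  rw [h6, ← integral_indicator measurableSet_ball]
  simp only [h3]
  have : r ^ 2 ≠ 0 := by positivity
  field_simp

theorem log_pot (a : ℂ) {η : ℂ → ℝ} (hη : ContDiff ℝ ∞ η) (hc : HasCompactSupport η) :
    Integrable (fun z => Real.log ‖z - a‖ * lap η z) ∧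
    ∫ z, Real.log ‖z - a‖ * lap η z = kap * η a := by
  have hηc : Continuous η := hη.continuous
  obtain ⟨C, hC0, hC⟩ := K3_bdd hηc hc
  obtain ⟨C', hC0', hC'⟩ := K3_bdd (K3_lap_cont hη) (K3_lap_cs hc)
  obtain ⟨R0, hR0, hsub⟩ := K3_tsupport_ball hc a
  obtain ⟨W, hWdef⟩ : ∃ W : ℂ → ℝ,
    W = (ball a (R0 + 2)).indicator (fun z => Real.log ‖z - a‖) := ⟨_, rfl⟩
  have hW : Integrable W := by
    rw [hWdef, integrable_indicator_iff measurableSet_ball]
    exact int_log a (R0 + 2)
  have hWin : ∀ z ∈ ball a (R0 + 2), W z = Real.log ‖z - a‖ := fun z hz => by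
    rw [hWdef, indicator_of_mem hz]
  have e1 : (fun z => W z * lap η z) = fun z => Real.log ‖z - a‖ * lap η z := by
    funext z
    by_cases hz : z ∈ tsupport η
    · rw [hWin z (ball_subset_ball (by linarith) (hsub hz))]
    · rw [lap_off hz, mul_zero, mul_zero]
  have hWl := K3_mul hW (K3_lap_cont hη) hC'
  rw [e1] at hWl
  refine ⟨hWl, ?_⟩
  have hlim := int_lap hW hη hc
  rw [e1] at hlim
  have hlimB : Tendsto (fun r : ℝ => 4 * ∫ y in ball (0 : ℂ) 1, -Real.log ‖y‖ * η (a + r • y))
      (𝓝[>] 0) (𝓝 (kap * η a)) := by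
    have h1 : kap * η a = 4 * ∫ y in ball (0 : ℂ) 1, -Real.log ‖y‖ * η a := by
      rw [integral_mul_const, kap, mul_assoc]
    rw [h1]
    refine Tendsto.const_mul 4 ?_
    refine tendsto_integral_filter_of_dominated_convergence
      (fun y => |(-Real.log ‖y‖)| * C) ?_ ?_ ?_ ?_
    · refine Eventually.of_forall fun r => ?_
      refine K3_int0.aestronglyMeasurable.mul ?_
      exact (by fun_prop : Continuous fun y : ℂ => η (a + r • y)).aestronglyMeasurable
    · refine Eventually.of_forall fun r => Eventually.of_forall fun y => ?_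
      rw [Real.norm_eq_abs, abs_mul]
      exact mul_le_mul_of_nonneg_left (hC _) (abs_nonneg _)
    · exact K3_int0.abs.mul_const C
    · refine Eventually.of_forall fun y => ?_
      have h2 : Continuous fun r : ℝ => -Real.log ‖y‖ * η (a + r • y) := by fun_prop
      have h3 := (h2.tendsto 0).mono_left (nhdsWithin_le_nhds (s := Ioi (0 : ℝ)))
      simpa using h3
  have hlim2 : Tendsto (fun r : ℝ => 4 / r ^ 2 * ∫ z, (Real.circleAverage W z r - W z) * η z)
      (𝓝[>] 0) (𝓝 (kap * η a)) := by
    refine hlimB.congr' ?_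
    filter_upwards [Ioo_mem_nhdsGT (zero_lt_one : (0 : ℝ) < 1)] with r hr
    rw [← K3_scale a hr.1]
    congr 1
    refine integral_congr_ae ?_
    have hne : ∀ᵐ z : ℂ, z ≠ a := by
      rw [ae_iff]
      simp
    filter_upwards [hne] with z hz
    by_cases hzs : z ∈ tsupport η
    · have hz0 : dist z a < R0 := hsub hzs
      have h1 : Real.circleAverage W z r = Real.circleAverage (fun w => Real.log ‖w - a‖) z r := by
        refine Real.circleAverage_congr_sphere fun w hw => ?_
        rw [mem_sphere, abs_of_pos hr.1] at hw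
        refine hWin w ?_
        rw [mem_ball]
        have := dist_triangle w z a
        linarith [hr.2]
      have h2 : Real.circleAverage (fun w => Real.log ‖w - a‖) z r =
          Real.log r + Real.posLog (r⁻¹ * ‖z - a‖) :=
        circleAverage_log_norm_sub_const_eq_log_radius_add_posLog hr.1.ne'
      have hpos : 0 < ‖z - a‖ := norm_pos_iff.2 (sub_ne_zero.2 hz)
      rw [h1, h2, hWin z (ball_subset_ball (by linarith) (hsub hzs))]
      by_cases hin : z ∈ ball a r
      · rw [indicator_of_mem hin]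
        have hlt : ‖z - a‖ < r := by
          rwa [mem_ball, dist_eq_norm] at hin
        have h3 : Real.posLog (r⁻¹ * ‖z - a‖) = 0 := by
          rw [Real.posLog_eq_zero_iff, abs_mul, abs_inv, abs_of_pos hr.1, abs_of_pos hpos]
          rw [inv_mul_le_iff₀ hr.1, mul_one]
          exact hlt.le
        rw [h3, Real.log_div hpos.ne' hr.1.ne']
        ring
      · rw [indicator_of_notMem hin]
        have hge : r ≤ ‖z - a‖ := by
          rw [mem_ball, dist_eq_norm, not_lt] at hin
          exact hin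
        have h3 : Real.posLog (r⁻¹ * ‖z - a‖) = Real.log (r⁻¹ * ‖z - a‖) := by
          refine Real.posLog_eq_log ?_
          rw [abs_mul, abs_inv, abs_of_pos hr.1, abs_of_pos hpos]
          rw [le_inv_mul_iff₀ hr.1, mul_one]
          exact hge
        rw [h3, Real.log_mul (inv_ne_zero hr.1.ne') hpos.ne', Real.log_inv]
        ring
    · have h0 : η z = 0 := image_eq_zero_of_notMem_tsupport hzs
      have h1 : (ball a r).indicator (fun z => -Real.log (‖z - a‖ / r) * η z) z = 0 := by
        by_cases hin : z ∈ ball a r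
        · rw [indicator_of_mem hin, h0, mul_zero]
        · rw [indicator_of_notMem hin]
      rw [h0, mul_zero, h1]
  exact tendsto_nhds_unique hlim hlim2

theorem K3_loc {c : ℂ} {R : ℝ} {w g : ℂ → ℝ} (hw : ContinuousOn w (ball c R))
    (hg : Continuous g) (hc : HasCompactSupport g) (hs : tsupport g ⊆ ball c R) :
    Integrable (fun z => w z * g z) := by
  have h1 : IntegrableOn (fun z => w z * g z) (tsupport g) :=
    ((hw.mono hs).mul hg.continuousOn).integrableOn_compact hc
  refine (integrableOn_iff_integrable_of_support_subset ?_).1 h1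
  intro z hz
  by_contra h
  exact hz (by simp [image_eq_zero_of_notMem_tsupport h])

theorem int_sub {c : ℂ} {R : ℝ} {w η : ℂ → ℝ} (hw : ContinuousOn w (ball c R))
    (hm : ∀ a r, 0 < r → closedBall a r ⊆ ball c R → w a ≤ Real.circleAverage w a r)
    (hη : ContDiff ℝ ∞ η) (hc : HasCompactSupport η) (hs : tsupport η ⊆ ball c R)
    (h0 : ∀ z, 0 ≤ η z) : 0 ≤ ∫ z, w z * lap η z := by
  obtain ⟨s, hs0, hsT⟩ := IsCompact.exists_cthickening_subset_open hc isOpen_ball hs
  have hTc : IsCompact (cthickening s (tsupport η)) := IsCompact.cthickening hc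
  obtain ⟨W, hWdef⟩ : ∃ W : ℂ → ℝ, W = (cthickening s (tsupport η)).indicator w := ⟨_, rfl⟩
  have hW : Integrable W := by
    rw [hWdef, integrable_indicator_iff hTc.measurableSet]
    exact (hw.mono hsT).integrableOn_compact hTc
  have hWin : ∀ z ∈ cthickening s (tsupport η), W z = w z := fun z hz => by
    rw [hWdef, indicator_of_mem hz]
  have hsupp : tsupport η ⊆ cthickening s (tsupport η) := self_subset_cthickening _
  have e1 : (fun z => W z * lap η z) = fun z => w z * lap η z := by
    funext z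
    by_cases hz : z ∈ tsupport η
    · rw [hWin z (hsupp hz)]
    · rw [lap_off hz, mul_zero, mul_zero]
  have hlim := int_lap hW hη hc
  rw [e1] at hlim
  refine ge_of_tendsto hlim ?_
  filter_upwards [Ioo_mem_nhdsGT hs0] with r hr
  refine mul_nonneg (by positivity) (integral_nonneg fun z => ?_)
  show 0 ≤ (Real.circleAverage W z r - W z) * η z
  by_cases hz : z ∈ tsupport η
  · refine mul_nonneg ?_ (h0 z)
    have h1 : closedBall z r ⊆ cthickening s (tsupport η) :=
      (closedBall_subset_closedBall hr.2.le).trans (closedBall_subset_cthickening hz s)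
    have h2 : Real.circleAverage W z r = Real.circleAverage w z r := by
      refine Real.circleAverage_congr_sphere fun y hy => ?_
      rw [abs_of_pos hr.1] at hy
      exact hWin y (h1 (sphere_subset_closedBall hy))
    rw [h2, hWin z (hsupp hz)]
    have := hm z r hr.1 (h1.trans hsT)
    linarith
  · rw [image_eq_zero_of_notMem_tsupport hz, mul_zero]

theorem K3_form {u w : ℂ → ℝ} {c : ℂ} {R : ℝ} {m : ℤ}
    (hu : ∀ z ∈ ball c R, z ≠ c → u z = m * Real.log ‖z - c‖ + w z) {g : ℂ → ℝ}
    (hg : ∀ z, z ∉ ball c R → g z = 0) :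
    (fun z => u z * g z) =ᵐ[volume] fun z => m * (Real.log ‖z - c‖ * g z) + w z * g z := by
  have hne : ∀ᵐ z : ℂ, z ≠ c := by
    rw [ae_iff]
    simp
  filter_upwards [hne] with z hz
  by_cases hzb : z ∈ ball c R
  · rw [hu z hzb hz]
    ring
  · rw [hg z hzb]
    ring

theorem loc_int {u : ℂ → ℝ} {c : ℂ} {R : ℝ} {m : ℤ} (hu : LocForm u c R m) {g : ℂ → ℝ}
    (hg : Continuous g) (hc : HasCompactSupport g) (hs : tsupport g ⊆ ball c R) :
    Integrable (fun z => u z * g z) := by
  obtain ⟨w, hw, _, hu⟩ := hu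
  have hoff : ∀ z, z ∉ ball c R → g z = 0 := fun z hz =>
    image_eq_zero_of_notMem_tsupport fun h => hz (hs h)
  refine Integrable.congr ?_ (K3_form hu hoff).symm
  obtain ⟨C, hC0, hC⟩ := K3_bdd hg hc
  have h1 : Integrable (fun z => Real.log ‖z - c‖ * g z) := by
    have h2 : Integrable ((ball c R).indicator (fun z => Real.log ‖z - c‖)) := by
      rw [integrable_indicator_iff measurableSet_ball]
      exact int_log c R
    have h3 := K3_mul h2 hg hC
    refine h3.congr (Eventually.of_forall fun z => ?_)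
    by_cases hz : z ∈ ball c R
    · simp only [indicator_of_mem hz]
    · simp only [indicator_of_notMem hz, hoff z hz, mul_zero]
  exact (h1.const_mul _).add (K3_loc hw hg hc hs)

theorem local_ineq {u : ℂ → ℝ} {c : ℂ} {R : ℝ} {m : ℤ} (hu : LocForm u c R m) {η : ℂ → ℝ}
    (hη : ContDiff ℝ ∞ η) (hc : HasCompactSupport η) (hs : tsupport η ⊆ ball c R)
    (h0 : ∀ z, 0 ≤ η z) : m * kap * η c ≤ ∫ z, u z * lap η z := by
  obtain ⟨w, hw, hm, hu⟩ := hu
  have hoff : ∀ z, z ∉ ball c R → lap η z = 0 := fun z hz =>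
    lap_off fun h => hz (hs h)
  obtain ⟨h1, h2⟩ := log_pot c hη hc
  have h3 := int_sub hw hm hη hc hs h0
  have hts : tsupport (lap η) ⊆ tsupport η := by
    refine closure_minimal ?_ (isClosed_tsupport η)
    intro z hz
    by_contra h
    exact hz (lap_off h)
  have h4 := K3_loc hw (K3_lap_cont hη) (K3_lap_cs hc) (hts.trans hs)
  rw [integral_congr_ae (K3_form hu hoff), integral_add (h1.const_mul _) h4, integral_const_mul, h2]
  linarith

end Pool.Agent.Nef6
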