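import Pool.Agent.H.MP_6a1d6a_ag.G
import Pool.Agent.H.MP_e23cd6_ag.AK.K6a
import Pool.Agent.H.MP_e23cd6_ag.AK.La
import Pool.Agent.H.MP_e23cd6_ag.AK.Av4
import Pool.Agent.H.MP_e23cd6_ag.AK.Her
import Pool.Agent.H.MP_e23cd6_ag.AK.Bnd

/-!
MP_6a1d6a_ag, module Ver: holomorphic families of linear forms on the fibres dominated by the averaged metric.

Λ from `exists_lat`, the averaged Kaehler data M : FKM A from `exists_fkm`, P from `exists_P`:
(H_{b0}(v,v)).re ≤ (H_b(P_b v, P_b v)).re. The family consists of all holomorphic ℓ : D → (E kk)^* with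
‖ℓ_b v‖² ≤ (H_b(v,v)).re for all b ∈ D and all v. K γ b v = L γ b v.
* `K_inv`: `A.L_inv_mul`. `ne`: ℓ = 0. `holo`: by definition.
* `bdd`: for S ⊆ D compact (H_b(v,v)).re ≤ c ‖v‖² for b ∈ S, from `IsHerm.expand` and the continuity of the entries
  H_b(e_p, e_q) on S; then ‖ℓ_b v‖ ≤ √c ‖v‖ (`ContinuousLinearMap.opNorm_le_bound`).
* `inv`: ℓ'_b = ℓ_{β γ b} ∘ L γ b is holomorphic and ‖ℓ'_b v‖² ≤ H_{β γ b}(L γ b v, L γ b v) = H_b(v,v) (`M.inv`).
* `pos`: P_b is injective: P_b v = 0 gives (H_{b0}(v,v)).re ≤ 0, v = 0. So P_b is invertible for b ∈ D, and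
  b ↦ P_b⁻¹ = Ring.inverse P_b is holomorphic on D (as in `K6b`/other modules: `ContinuousLinearMap.inverse`, or `Ring.inverse`,
  `contDiffAt_ringInverse`, `DifferentiableAt.ringInverse`; the ring E kk →L[ℂ] E kk is complete). Given v ≠ 0 at b let
  u = P_b⁻¹ v ≠ 0 (b fixed) and ℓ_x(w) = s H_{b0}(P_x⁻¹ w, u), s > 0 with s² (H_{b0}(u,u)).re ≤ 1. By Cauchy-Schwarz for H_{b0}:
  ‖ℓ_x(w)‖² ≤ s² H_{b0}(P_x⁻¹w, P_x⁻¹w) H_{b0}(u,u) ≤ H_x(w,w), and ℓ_b(v) = s H_{b0}(u,u) ≠ 0. (w ↦ H_{b0}(w,u) is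
  complex linear: `add_left`, `smul_left`.) For Cauchy-Schwarz of `IsHerm` forms look for an existing lemma in AK (K6b, Her) or
  expand H(x - t y, x - t y) ≥ 0 with t = H(x,y)/H(y,y).
-/

set_option autoImplicit false

open Set Filter Topology Metric

namespace Pool.Agent.Nef6

open Pool.Agent.H.MP_e23cd6_ag.AB (Dom BaseAct KMet)
open Pool.Agent.H.MP_e23cd6_ag.AK

theorem Ver_cs {kk : ℕ} {H : (Fin kk → ℂ) → (Fin kk → ℂ) → ℂ} (h : IsHerm H) (v w : Fin kk → ℂ) :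
    ‖H v w‖ ^ 2 ≤ (H v v).re * (H w w).re := by
  obtain ⟨S, hS⟩ := herm_frame h
  have h1 : ∀ x, (H x x).re = ‖S x‖ ^ 2 := by
    intro x
    rw [← hS x x]
    exact inner_self_eq_norm_sq (𝕜 := ℂ) (S x)
  rw [h1, h1, ← hS v w, ← mul_pow, mul_comm]
  exact pow_le_pow_left₀ (norm_nonneg _) (norm_inner_le_norm _ _) 2

theorem Ver_unit {kk : ℕ} {H H0 : (Fin kk → ℂ) → (Fin kk → ℂ) → ℂ} (h : IsHerm H) (h0 : IsHerm H0)
    (P : (Fin kk → ℂ) →L[ℂ] (Fin kk → ℂ)) (hP : ∀ v, (H0 v v).re ≤ (H (P v) (P v)).re) :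
    IsUnit P := by
  rw [ContinuousLinearMap.isUnit_iff_bijective]
  have hinj : Function.Injective P := by
    refine (injective_iff_map_eq_zero P).2 fun v hv => ?_
    by_contra hv0
    have h1 := h0.pos v hv0
    have h2 := hP v
    rw [hv, h.zero_left] at h2
    simp only [Complex.zero_re] at h2
    linarith
  exact ⟨hinj, (LinearMap.injective_iff_surjective (f := (P : (Fin kk → ℂ) →ₗ[ℂ] (Fin kk → ℂ)))).1 hinj⟩

/-- the linear functional given by a Hermitian form -/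
noncomputable def Ver_lin {kk : ℕ} {H : (Fin kk → ℂ) → (Fin kk → ℂ) → ℂ} (h : IsHerm H)
    (u : Fin kk → ℂ) : (Fin kk → ℂ) →L[ℂ] ℂ :=
  LinearMap.toContinuousLinearMap
    { toFun := fun w => H w u
      map_add' := fun v w => h.add_left v w u
      map_smul' := fun a v => h.smul_left a v u }

theorem Ver_lin_apply {kk : ℕ} {H : (Fin kk → ℂ) → (Fin kk → ℂ) → ℂ} (h : IsHerm H)
    (u w : Fin kk → ℂ) : Ver_lin h u w = H w u := rfl

theorem exists_ver {n kk : ℕ} {Ω : Dom n} {Γ : Type} [Group Γ] (A : FibAct Ω kk Γ) (Λ : Lat A)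
    (M : FKM A) :
    ∃ Φ : FormFam A.toBaseAct (Fin kk → ℂ), ∀ γ, ∀ b ∈ Ω.D, ∀ v, Φ.K γ b v = A.L γ b v := by
  obtain ⟨P, hPh, hP⟩ := exists_P Λ M
  have hH : ∀ b ∈ Ω.D, IsHerm (M.H b) := fun b hb => M.toFMet.isHerm hb
  refine ⟨{ K := fun γ b v => A.L γ b v
            K_inv := ?_
            ι := {ℓ : (Fin n → ℂ) → ((Fin kk → ℂ) →L[ℂ] ℂ) // DifferentiableOn ℂ ℓ Ω.D ∧
              ∀ b ∈ Ω.D, ∀ v, ‖ℓ b v‖ ^ 2 ≤ (M.H b v v).re}
            ne := ?_
            f := fun i => i.1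
            holo := fun i => i.2.1
            bdd := ?_
            inv := ?_
            pos := ?_ }, fun γ b hb v => rfl⟩
  · intro γ b hb v
    have h1 := A.L_inv_mul γ hb
    have h2 := congrArg (fun T : (Fin kk → ℂ) →L[ℂ] (Fin kk → ℂ) => T v) h1
    exact h2
  · refine ⟨⟨fun _ => 0, differentiableOn_const _, fun b hb v => ?_⟩⟩
    have h1 := (hH b hb).self_nonneg v
    simpa using h1
  · intro S hS hSc
    obtain ⟨C, hC, hb⟩ := M.toFMet.bounds hS hSc
    refine ⟨Real.sqrt C, fun i b hbS => ?_⟩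
    refine ContinuousLinearMap.opNorm_le_bound _ (Real.sqrt_nonneg _) fun v => ?_
    have h1 := i.2.2 b (hS hbS) v
    have h2 := (hb b hbS v).1
    have h3 : ‖i.1 b v‖ ^ 2 ≤ (Real.sqrt C * ‖v‖) ^ 2 := by
      rw [mul_pow, Real.sq_sqrt hC.le]
      exact h1.trans h2
    exact (pow_le_pow_iff_left₀ (norm_nonneg _) (by positivity) two_ne_zero).1 h3
  · intro i γ
    refine ⟨⟨fun b => (i.1 (A.β γ b)).comp (A.L γ b), ?_, ?_⟩, fun b hb v => rfl⟩
    · exact (i.2.1.comp (A.holo γ) (A.maps γ)).clm_comp (A.L_holo γ)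
    · intro b hb v
      have h1 := i.2.2 (A.β γ b) (A.maps γ hb) (A.L γ b v)
      rw [M.inv γ b hb] at h1
      exact h1
  · intro b hb v hv
    have h0 := hH Ω.b0 Ω.b0_mem
    have hu : ∀ x ∈ Ω.D, IsUnit (P x) := fun x hx => Ver_unit (hH x hx) h0 (P x) (hP x hx)
    have hPI : ∀ x ∈ Ω.D, ∀ w, P x (Ring.inverse (P x) w) = w := by
      intro x hx w
      have h1 := Ring.mul_inverse_cancel (P x) (hu x hx)
      exact congrArg (fun T : (Fin kk → ℂ) →L[ℂ] (Fin kk → ℂ) => T w) h1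
    set u : Fin kk → ℂ := Ring.inverse (P b) v with hudef
    have hu0 : u ≠ 0 := by
      intro h1
      have h2 := hPI b hb v
      rw [← hudef, h1, map_zero] at h2
      exact hv h2.symm
    have hpos := h0.pos u hu0
    set q : ℝ := (M.H Ω.b0 u u).re with hq
    set s : ℝ := (Real.sqrt q)⁻¹ with hs
    have hsq : s ^ 2 * q = 1 := by
      rw [hs, inv_pow, Real.sq_sqrt hpos.le, inv_mul_cancel₀ hpos.ne']
    have hs0 : s ≠ 0 := by
      intro h1
      rw [h1] at hsq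
      norm_num at hsq
    refine ⟨⟨fun x => (s : ℂ) • (Ver_lin h0 u).comp (Ring.inverse (P x)), ?_, ?_⟩, ?_⟩
    · have hd1 : DifferentiableOn ℂ (fun x => Ring.inverse (P x)) Ω.D := by
        intro x hx
        exact (differentiableAt_inverse (hu x hx)).comp_differentiableWithinAt x (hPh x hx)
      have hd : DifferentiableOn ℂ (fun x => (Ver_lin h0 u).comp (Ring.inverse (P x))) Ω.D :=
        (differentiableOn_const (Ver_lin h0 u)).clm_comp hd1
      exact hd.const_smul (s : ℂ)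
    · intro x hx w
      have e : ((s : ℂ) • (Ver_lin h0 u).comp (Ring.inverse (P x))) w =
          (s : ℂ) * M.H Ω.b0 (Ring.inverse (P x) w) u := rfl
      rw [e, norm_mul, mul_pow, Complex.norm_real, Real.norm_eq_abs, sq_abs]
      have h1 := Ver_cs h0 (Ring.inverse (P x) w) u
      have h2 := hP x hx (Ring.inverse (P x) w)
      rw [hPI x hx w] at h2
      have h3 := h0.self_nonneg (Ring.inverse (P x) w)
      calc s ^ 2 * ‖M.H Ω.b0 (Ring.inverse (P x) w) u‖ ^ 2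
          ≤ s ^ 2 * ((M.H Ω.b0 (Ring.inverse (P x) w) (Ring.inverse (P x) w)).re * q) :=
            mul_le_mul_of_nonneg_left h1 (sq_nonneg s)
        _ = (M.H Ω.b0 (Ring.inverse (P x) w) (Ring.inverse (P x) w)).re := by
            linear_combination (M.H Ω.b0 (Ring.inverse (P x) w) (Ring.inverse (P x) w)).re * hsq
        _ ≤ _ := h2
    · have e : ((s : ℂ) • (Ver_lin h0 u).comp (Ring.inverse (P b))) v =
          (s : ℂ) * M.H Ω.b0 u u := rfl
      show ((s : ℂ) • (Ver_lin h0 u).comp (Ring.inverse (P b))) v ≠ 0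
      rw [e]
      refine mul_ne_zero (Complex.ofReal_ne_zero.2 hs0) fun h1 => ?_
      rw [hq, h1] at hpos
      simp at hpos

end Pool.Agent.Nef6
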