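import Pool.Agent.H.MP_6a1d6a_ag.Car
import Pool.Agent.H.MP_6a1d6a_ag.Ver
import Pool.Agent.H.MP_e23cd6_ag.AK.E9
import Pool.Agent.H.MP_e23cd6_ag.AK.Tr2
import Pool.Agent.H.MP_e23cd6_ag.AK.S0
import Pool.Agent.H.MP_e23cd6_ag.AK.Mc2
import Pool.Agent.H.MP_e23cd6_ag.AK.Me2

/-!
MP_6a1d6a_ag, module Main: the cotangent bundle of the quotient is nef.
-/

set_option autoImplicit false

open Set Filter Topology Metric
open scoped ContDiff Manifold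

namespace Pool.Agent.Nef6

open Pool.Agent.H.MP_e23cd6_ag.AB (Dom BaseAct KMet BasePD)
open Pool.Agent.H.MP_e23cd6_ag.AK

section orders

variable {V W : Type} [NormedAddCommGroup V] [NormedSpace ℂ V] [NormedAddCommGroup W] [NormedSpace ℂ W]

theorem Main_mero_clm {f : ℂ → V} {x : ℂ} (hf : MeromorphicAt f x) (L : V →L[ℂ] W) :
    MeromorphicAt (fun z => L (f z)) x := by
  obtain ⟨n, hn⟩ := hf
  refine ⟨n, ?_⟩
  have h1 : AnalyticAt ℂ (fun z => L ((z - x) ^ n • f z)) x := (L.analyticAt _).comp hn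
  refine h1.congr (Eventually.of_forall fun z => ?_)
  exact map_smul L _ _

theorem Main_ord_le {f : ℂ → V} {x : ℂ} (hf : MeromorphicAt f x) (L : V →L[ℂ] W) {o m : ℤ}
    (ho : meromorphicOrderAt f x = o) (hm : meromorphicOrderAt (fun z => L (f z)) x = m) : o ≤ m := by
  obtain ⟨g, hg, hg0, hfg⟩ := (meromorphicOrderAt_eq_int_iff hf).1 ho
  have h1 : AnalyticAt ℂ (fun z => L (g z)) x := (L.analyticAt _).comp hg
  have h2 : (fun z => L (f z)) =ᶠ[𝓝[≠] x] fun z => (z - x) ^ o • L (g z) := by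
    filter_upwards [hfg] with z hz
    rw [hz, map_smul]
  have h3 : MeromorphicAt (fun z : ℂ => (z - x) ^ o) x := by fun_prop
  have h4 : meromorphicOrderAt (fun z => (z - x) ^ o • L (g z)) x =
      meromorphicOrderAt (fun z : ℂ => (z - x) ^ o) x + meromorphicOrderAt (fun z => L (g z)) x :=
    fun_meromorphicOrderAt_smul h3 h1.meromorphicAt
  rw [meromorphicOrderAt_congr h2, h4, fun_meromorphicOrderAt_zpow_id_sub_const] at hm
  have h5 := h1.meromorphicOrderAt_nonneg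
  have h6 : ((o : ℤ) : WithTop ℤ) ≤ m := by
    rw [← hm]
    calc ((o : ℤ) : WithTop ℤ) = o + 0 := (add_zero _).symm
      _ ≤ _ := by gcongr
  exact_mod_cast h6

theorem Main_ord_snd {f : ℂ → V × W} {x : ℂ} (hf : MeromorphicAt f x) {o : ℤ}
    (ho : meromorphicOrderAt f x = o) (h0 : ∀ᶠ z in 𝓝[≠] x, (f z).1 = 0) :
    meromorphicOrderAt (fun z => ContinuousLinearMap.snd ℂ V W (f z)) x = o := by
  obtain ⟨g, hg, hg0, hfg⟩ := (meromorphicOrderAt_eq_int_iff hf).1 ho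
  rw [meromorphicOrderAt_eq_int_iff (Main_mero_clm hf _)]
  have h1 : AnalyticAt ℂ (fun z => (g z).2) x :=
    ((ContinuousLinearMap.snd ℂ V W).analyticAt _).comp hg
  refine ⟨fun z => (g z).2, h1, ?_, ?_⟩
  · have h2 : ∀ᶠ z in 𝓝[≠] x, (g z).1 = 0 := by
      filter_upwards [hfg, h0, self_mem_nhdsWithin] with z hz h0z hne
      rw [hz] at h0z
      have h3 : (z - x) ^ o ≠ 0 := zpow_ne_zero _ (sub_ne_zero.2 hne)
      have h4 : (z - x) ^ o • (g z).1 = 0 := h0z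
      exact (smul_eq_zero.1 h4).resolve_left h3
    have h5 : Tendsto (fun z => (g z).1) (𝓝[≠] x) (𝓝 (g x).1) :=
      (continuous_fst.continuousAt.comp hg.continuousAt).tendsto.mono_left nhdsWithin_le_nhds
    have h6 : (g x).1 = 0 := by
      refine tendsto_nhds_unique (h5.congr' ?_) tendsto_const_nhds
      filter_upwards [h2] with z hz using hz
    intro h7
    exact hg0 (Prod.ext h6 h7)
  · filter_upwards [hfg] with z hz
    show (f z).2 = _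
    rw [hz]
    rfl

end orders

section surf

variable {C : Type} [TopologicalSpace C] [ChartedSpace ℂ C]

theorem Main_tend (c : C) : Tendsto (chartAt ℂ c) (𝓝[≠] c) (𝓝[≠] (chartAt ℂ c c)) := by
  have h1 : ContinuousAt (chartAt ℂ c) c := (chartAt ℂ c).continuousAt (mem_chart_source ℂ c)
  refine tendsto_nhdsWithin_iff.2 ⟨h1.tendsto.mono_left nhdsWithin_le_nhds, ?_⟩
  have h2 : ∀ᶠ c' in 𝓝[≠] c, c' ∈ (chartAt ℂ c).source :=
    mem_nhdsWithin_of_mem_nhds ((chartAt ℂ c).open_source.mem_nhds (mem_chart_source ℂ c))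
  filter_upwards [h2, self_mem_nhdsWithin] with c' hc' hne h
  exact hne ((chartAt ℂ c).injOn hc' (mem_chart_source ℂ c) h)

theorem Main_tend_symm (c : C) :
    Tendsto (chartAt ℂ c).symm (𝓝[≠] (chartAt ℂ c c)) (𝓝[≠] c) := by
  have hm : chartAt ℂ c c ∈ (chartAt ℂ c).target := mem_chart_target ℂ c
  have h1 : ContinuousAt (chartAt ℂ c).symm (chartAt ℂ c c) := (chartAt ℂ c).symm.continuousAt hm
  have h0 : (chartAt ℂ c).symm (chartAt ℂ c c) = c := (chartAt ℂ c).left_inv (mem_chart_source ℂ c)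
  have h1' : Tendsto (chartAt ℂ c).symm (𝓝 (chartAt ℂ c c)) (𝓝 c) := by
    have := h1.tendsto
    rwa [h0] at this
  refine tendsto_nhdsWithin_iff.2 ⟨h1'.mono_left nhdsWithin_le_nhds, ?_⟩
  have h2 : ∀ᶠ z in 𝓝[≠] (chartAt ℂ c c), z ∈ (chartAt ℂ c).target :=
    mem_nhdsWithin_of_mem_nhds ((chartAt ℂ c).open_target.mem_nhds hm)
  filter_upwards [h2, self_mem_nhdsWithin] with z hz hne h
  refine hne ((chartAt ℂ c).symm.injOn hz hm ?_)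
  rw [h0]
  exact h

theorem Main_neBot (c : C) : (𝓝[≠] c).NeBot := (Main_tend_symm c).neBot

theorem Main_dich [ConnectedSpace C] [T2Space C] {Z : Set C}
    (h : ∀ c : C, (∀ᶠ c' in 𝓝[≠] c, c' ∈ Z) ∨ ∀ᶠ c' in 𝓝[≠] c, c' ∉ Z) :
    (∀ c : C, ∀ᶠ c' in 𝓝[≠] c, c' ∈ Z) ∨ ∀ c : C, ∀ᶠ c' in 𝓝[≠] c, c' ∉ Z := by
  have hopen : ∀ P : Set C, IsOpen {c : C | ∀ᶠ c' in 𝓝[≠] c, c' ∈ P} := by
    intro P
    rw [isOpen_iff_mem_nhds]
    intro c hc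
    obtain ⟨U, hU, hcU, hUP⟩ := mem_nhdsWithin.1 hc
    refine mem_of_superset (hU.mem_nhds hcU) fun c' hc' => ?_
    by_cases hcc : c' = c
    · rw [hcc]
      exact hc
    · have h1 : U ∩ {c}ᶜ ∈ 𝓝 c' := (hU.inter isOpen_compl_singleton).mem_nhds ⟨hc', hcc⟩
      exact mem_nhdsWithin_of_mem_nhds (mem_of_superset h1 hUP)
  have h1 := hopen Z
  have h2 := hopen Zᶜ
  have hcompl : {c : C | ∀ᶠ c' in 𝓝[≠] c, c' ∈ Z}ᶜ = {c : C | ∀ᶠ c' in 𝓝[≠] c, c' ∈ Zᶜ} := by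
    ext c
    constructor
    · intro hc
      exact (h c).resolve_left hc
    · intro hc hc'
      have := Main_neBot c
      have hc2 : ∀ᶠ c' in 𝓝[≠] c, c' ∈ Zᶜ := hc
      obtain ⟨x, hx, hx'⟩ := (hc2.and hc').exists
      exact hx hx'
  have hclopen : IsClopen {c : C | ∀ᶠ c' in 𝓝[≠] c, c' ∈ Z} :=
    ⟨⟨by rw [hcompl]; exact h2⟩, h1⟩
  rcases isClopen_iff.1 hclopen with h3 | h3
  · right
    intro c
    refine (h c).resolve_left fun h4 => ?_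
    have : c ∈ {c : C | ∀ᶠ c' in 𝓝[≠] c, c' ∈ Z} := h4
    rw [h3] at this
    exact this
  · left
    intro c
    have : c ∈ {c : C | ∀ᶠ c' in 𝓝[≠] c, c' ∈ Z} := by rw [h3]; trivial
    exact this

end surf

variable {n kk : ℕ} {Ω : Dom n} {Γ : Type} [Group Γ]
variable {Y : Type} [TopologicalSpace Y] [ChartedSpace ((Fin n → ℂ) × (Fin kk → ℂ)) Y]

theorem Main_fst (A : TotAct Ω kk Γ) (γ : Γ) {x : (Fin n → ℂ) × (Fin kk → ℂ)} (hx : x ∈ TM Ω kk)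
    (v : (Fin n → ℂ) × (Fin kk → ℂ)) :
    (fderiv ℂ (A.act γ) x v).1 = fderiv ℂ (A.β γ) x.1 v.1 := by
  have hx' : x.1 ∈ Ω.D := hx.1
  have h1 : HasFDerivAt (A.act γ) (fderiv ℂ (A.act γ) x) x :=
    ((act_holo A γ).differentiableAt ((TM_open Ω kk).mem_nhds hx)).hasFDerivAt
  have h2 : HasFDerivAt (fun y => (A.act γ y).1)
      ((ContinuousLinearMap.fst ℂ (Fin n → ℂ) (Fin kk → ℂ)).comp (fderiv ℂ (A.act γ) x)) x :=
    (ContinuousLinearMap.fst ℂ (Fin n → ℂ) (Fin kk → ℂ)).hasFDerivAt.comp x h1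
  have h3 : HasFDerivAt (A.β γ) (fderiv ℂ (A.β γ) x.1) x.1 :=
    ((A.holo γ).differentiableAt (Ω.isOpen.mem_nhds hx')).hasFDerivAt
  have h4 : HasFDerivAt (fun y : (Fin n → ℂ) × (Fin kk → ℂ) => A.β γ y.1)
      ((fderiv ℂ (A.β γ) x.1).comp (ContinuousLinearMap.fst ℂ (Fin n → ℂ) (Fin kk → ℂ))) x :=
    h3.comp x (ContinuousLinearMap.fst ℂ (Fin n → ℂ) (Fin kk → ℂ)).hasFDerivAt
  have h5 : (fun y => (A.act γ y).1) =ᶠ[𝓝 x] fun y => A.β γ y.1 := by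
    filter_upwards [(TM_open Ω kk).mem_nhds hx] with y hy
    exact A.fst γ y hy
  have h6 := (h2.congr_of_eventuallyEq h5.symm).unique h4
  exact congrArg (fun L => L v) h6

theorem Main_snd (A : FibAct Ω kk Γ) (γ : Γ) {x : (Fin n → ℂ) × (Fin kk → ℂ)} (hx : x ∈ TM Ω kk)
    {v : (Fin n → ℂ) × (Fin kk → ℂ)} (hv : v.1 = 0) :
    (fderiv ℂ (A.act γ) x v).2 = A.L γ x.1 v.2 := by
  have hx' : x.1 ∈ Ω.D := hx.1
  have h1 : HasFDerivAt (A.act γ) (fderiv ℂ (A.act γ) x) (x.1, x.2) :=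
    ((act_holo A.toTotAct γ).differentiableAt ((TM_open Ω kk).mem_nhds hx)).hasFDerivAt
  have h2 := h1.comp x.2 (hasFDerivAt_prodMk_right x.1 x.2)
  have h3 : HasFDerivAt (fun z => (A.act γ (x.1, z)).2)
      ((ContinuousLinearMap.snd ℂ (Fin n → ℂ) (Fin kk → ℂ)).comp
        ((fderiv ℂ (A.act γ) x).comp (ContinuousLinearMap.inr ℂ (Fin n → ℂ) (Fin kk → ℂ)))) x.2 :=
    (ContinuousLinearMap.snd ℂ (Fin n → ℂ) (Fin kk → ℂ)).hasFDerivAt.comp x.2 h2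
  have h4 : (fun z => (A.act γ (x.1, z)).2) = fun z => A.L γ x.1 z + A.c γ x.1 := by
    funext z
    rw [A.act_eq γ x.1 hx' z]
  rw [h4] at h3
  have h5 : HasFDerivAt (fun z => A.L γ x.1 z + A.c γ x.1) (A.L γ x.1) x.2 :=
    (A.L γ x.1).hasFDerivAt.add_const _
  have h6 := congrArg (fun L => L v.2) (h3.unique h5)
  rw [← h6]
  show _ = (fderiv ℂ (A.act γ) x (0, v.2)).2
  congr 3
  exact Prod.ext hv rfl

theorem nef_main [IsManifold 𝓘(ℂ, (Fin n → ℂ) × (Fin kk → ℂ)) ω Y] (A : FibAct Ω kk Γ)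
    {p : (Fin n → ℂ) × (Fin kk → ℂ) → Y} (hp : IsQuot A.toTotAct p) (hcc : TrCC A)
    (h : KMet (TM Ω kk)) (hinv : InvMet A.toTotAct h) :
    CotangentNef ((Fin n → ℂ) × (Fin kk → ℂ)) Y := by
  obtain ⟨Λ⟩ := exists_lat A hcc
  obtain ⟨M⟩ := exists_fkm Λ h hinv
  obtain ⟨Φc, hΦc⟩ := exists_car A.toBaseAct
  obtain ⟨Φv, hΦv⟩ := exists_ver A Λ M
  intro C _ _ _ _ _ _ ν hν σ o hσ
  -- the transition rule in good charts
  have htr : ∀ {φ φ' : OpenPartialHomeomorph Y ((Fin n → ℂ) × (Fin kk → ℂ))}, Good Ω p φ →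
      Good Ω p φ' → ∀ {c : C}, ν c ∈ φ.source → ν c ∈ φ'.source →
      ∃ γ, σ φ' c = fderiv ℂ (A.act γ) (φ (ν c)) (σ φ c) := by
    intro φ φ' hφ hφ' c hc hc'
    obtain ⟨γ, -, hγ⟩ := good_trans hp hφ hφ' hc hc'
    refine ⟨γ, ?_⟩
    rw [hσ.1 φ hφ.1 φ' hφ'.1 c hc hc', hγ.fderiv_eq]
  have hTM : ∀ {φ : OpenPartialHomeomorph Y ((Fin n → ℂ) × (Fin kk → ℂ))}, Good Ω p φ →
      ∀ {c : C}, ν c ∈ φ.source → φ (ν c) ∈ TM Ω kk :=
    fun hφ _ hc => hφ.2.1 (OpenPartialHomeomorph.map_source _ hc)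
  -- vertical points
  set Z : Set C := {c | ∃ φ, Good Ω p φ ∧ ν c ∈ φ.source ∧ (σ φ c).1 = 0} with hZ
  have hZall : ∀ {c : C}, c ∈ Z → ∀ {φ}, Good Ω p φ → ν c ∈ φ.source → (σ φ c).1 = 0 := by
    rintro c ⟨φ, hφ, hc, h0⟩ φ' hφ' hc'
    obtain ⟨γ, hγ⟩ := htr hφ hφ' hc hc'
    rw [hγ, Main_fst A.toTotAct γ (hTM hφ hc), h0, map_zero]
  choose φ0 hφ0 hφ0s using fun c : C => good_exists hp (ν c)
  have hnear : ∀ c : C, ∀ᶠ c' in 𝓝[≠] c, ν c' ∈ (φ0 c).source := fun c =>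
    mem_nhdsWithin_of_mem_nhds
      (hν.continuous.continuousAt.preimage_mem_nhds ((φ0 c).open_source.mem_nhds (hφ0s c)))
  have hmer : ∀ c : C, MeromorphicAt (fun z => σ (φ0 c) ((chartAt ℂ c).symm z)) (chartAt ℂ c c) ∧
      meromorphicOrderAt (fun z => σ (φ0 c) ((chartAt ℂ c).symm z)) (chartAt ℂ c c) = o c := fun c =>
    hσ.2 (φ0 c) (hφ0 c).1 (chartAt ℂ c) (IsManifold.chart_mem_maximalAtlas c) c (hφ0s c)
      (mem_chart_source ℂ c)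
  set q1 := ContinuousLinearMap.fst ℂ (Fin n → ℂ) (Fin kk → ℂ) with hq1
  set q2 := ContinuousLinearMap.snd ℂ (Fin n → ℂ) (Fin kk → ℂ) with hq2
  have hmer1 : ∀ c : C, MeromorphicAt (fun z => q1 (σ (φ0 c) ((chartAt ℂ c).symm z)))
      (chartAt ℂ c c) := fun c => Main_mero_clm (hmer c).1 q1
  have hmer2 : ∀ c : C, MeromorphicAt (fun z => q2 (σ (φ0 c) ((chartAt ℂ c).symm z)))
      (chartAt ℂ c c) := fun c => Main_mero_clm (hmer c).1 q2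
  have hback : ∀ (c : C) {P : C → Prop}, (∀ᶠ z in 𝓝[≠] (chartAt ℂ c c), P ((chartAt ℂ c).symm z)) →
      ∀ᶠ c' in 𝓝[≠] c, P c' := by
    intro c P hP
    have h2 : ∀ᶠ c' in 𝓝[≠] c, c' ∈ (chartAt ℂ c).source :=
      mem_nhdsWithin_of_mem_nhds ((chartAt ℂ c).open_source.mem_nhds (mem_chart_source ℂ c))
    filter_upwards [(Main_tend c).eventually hP, h2] with c' hc' hs
    rwa [(chartAt ℂ c).left_inv hs] at hc'
  have hdich : ∀ c : C, (∀ᶠ c' in 𝓝[≠] c, c' ∈ Z) ∨ ∀ᶠ c' in 𝓝[≠] c, c' ∉ Z := by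
    intro c
    rcases (hmer1 c).eventually_eq_zero_or_eventually_ne_zero with h1 | h1
    · left
      filter_upwards [hback c (P := fun c' => q1 (σ (φ0 c) c') = 0) h1, hnear c] with c' hc' hs
      exact ⟨φ0 c, hφ0 c, hs, hc'⟩
    · right
      filter_upwards [hback c (P := fun c' => q1 (σ (φ0 c) c') ≠ 0) h1, hnear c] with c' hc' hs hz
      exact hc' (hZall hz (hφ0 c) hs)
  rcases Main_dich hdich with hv | hh
  · -- vertical fields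
    refine (fam_sum_le hp Φv q2 hν hσ.1 ?_ (m := o) ?_).2
    · intro c
      filter_upwards [hv c] with c' hc' φ hφ hs γ
      have h1 := Main_snd A γ (hTM hφ hs) (hZall hc' hφ hs)
      rw [hΦv γ _ (hTM hφ hs).1]
      exact h1
    · intro c
      refine ⟨φ0 c, hφ0 c, hφ0s c, hmer2 c, Main_ord_snd (hmer c).1 (hmer c).2 ?_⟩
      have h1 := (Main_tend_symm c).eventually ((hv c).and (hnear c))
      filter_upwards [h1] with z hz
      exact hZall hz.1 (hφ0 c) hz.2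
  · -- fields with a horizontal component
    have hne : ∀ c : C, meromorphicOrderAt (fun z => q1 (σ (φ0 c) ((chartAt ℂ c).symm z)))
        (chartAt ℂ c c) ≠ ⊤ := by
      intro c
      rw [meromorphicOrderAt_ne_top_iff_eventually_ne_zero (hmer1 c)]
      have h1 := (Main_tend_symm c).eventually ((hh c).and (hnear c))
      filter_upwards [h1] with z hz h0
      exact hz.1 ⟨φ0 c, hφ0 c, hz.2, h0⟩
    choose m hm using fun c => WithTop.ne_top_iff_exists.1 (hne c)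
    have h1 := fam_sum_le hp Φc q1 hν hσ.1 (m := m) (by
      intro c
      refine Eventually.of_forall fun c' φ hφ hs γ => ?_
      rw [hΦc]
      exact Main_fst A.toTotAct γ (hTM hφ hs) _) (by
      intro c
      exact ⟨φ0 c, hφ0 c, hφ0s c, hmer1 c, (hm c).symm⟩)
    have hom : ∀ c, o c ≤ m c := fun c => Main_ord_le (hmer c).1 q1 (hmer c).2 (hm c).symm
    by_cases hfin : (Function.support o).Finite
    · exact (finsum_le_finsum' hfin h1.1 hom).trans h1.2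
    · rw [finsum_of_infinite_support hfin]

/-- quotients by groups acting isometrically for a flat metric of the leaves -/
theorem nef_flat {D : Set (Fin n → ℂ)} (hD : IsOpen D) (hconn : IsConnected D)
    (hbdd : Bornology.IsBounded D) (g : Γ → (Fin n → ℂ) × (Fin kk → ℂ) → (Fin n → ℂ) × (Fin kk → ℂ))
    (maps : ∀ γ, MapsTo (g γ) (D ×ˢ univ) (D ×ˢ univ))
    (holo : ∀ γ, DifferentiableOn ℂ (g γ) (D ×ˢ univ))
    (one : ∀ x ∈ D ×ˢ (univ : Set (Fin kk → ℂ)), g 1 x = x)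
    (mul : ∀ γ δ, ∀ x ∈ D ×ˢ (univ : Set (Fin kk → ℂ)), g (γ * δ) x = g γ (g δ x))
    (pd : ∀ K ⊆ D ×ˢ (univ : Set (Fin kk → ℂ)), IsCompact K → {γ | (g γ '' K ∩ K).Nonempty}.Finite)
    (cc : ∃ K ⊆ D ×ˢ (univ : Set (Fin kk → ℂ)), IsCompact K ∧
      ∀ x ∈ D ×ˢ (univ : Set (Fin kk → ℂ)), ∃ γ, g γ x ∈ K)
    (h : KMet (D ×ˢ (univ : Set (Fin kk → ℂ))))
    (hinv : ∀ γ, ∀ x ∈ D ×ˢ (univ : Set (Fin kk → ℂ)), ∀ v w,
      h.h (g γ x) (fderiv ℂ (g γ) x v) (fderiv ℂ (g γ) x w) = h.h x v w)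
    (H : (Fin n → ℂ) → (Fin kk → ℂ) → (Fin kk → ℂ) → ℂ)
    (hcont : ∀ v w, ContinuousOn (fun b => H b v w) D)
    (hherm : ∀ b ∈ D, IsHerm (H b))
    (hflat : ∀ γ, ∀ x ∈ D ×ˢ (univ : Set (Fin kk → ℂ)), ∀ v w,
      H (g γ x).1 (fderiv ℂ (g γ) x (0, v)).2 (fderiv ℂ (g γ) x (0, w)).2 = H x.1 v w)
    [IsManifold 𝓘(ℂ, (Fin n → ℂ) × (Fin kk → ℂ)) ω Y] {p : (Fin n → ℂ) × (Fin kk → ℂ) → Y}
    (surj : ∀ y, ∃ x ∈ D ×ˢ (univ : Set (Fin kk → ℂ)), p x = y)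
    (rel : ∀ x ∈ D ×ˢ (univ : Set (Fin kk → ℂ)), ∀ x' ∈ D ×ˢ (univ : Set (Fin kk → ℂ)),
      p x = p x' ↔ ∃ γ, g γ x = x')
    (chart : ∀ x ∈ D ×ˢ (univ : Set (Fin kk → ℂ)), ∃ φ ∈ Charts ((Fin n → ℂ) × (Fin kk → ℂ)) Y,
      x ∈ φ.target ∧ φ.target ⊆ D ×ˢ univ ∧ ∀ y ∈ φ.target, p y = φ.symm y) :
    CotangentNef ((Fin n → ℂ) × (Fin kk → ℂ)) Y := by
  classical
  obtain ⟨b0, hb0⟩ := hconn.nonempty
  obtain ⟨r, hr, hball⟩ := Metric.nhds_basis_closedBall.mem_iff.mp (hD.mem_nhds hb0)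
  let Ω : Dom n := ⟨D, hD, hconn.isPreconnected, hbdd, b0, r / 2, r, by linarith, by linarith, hball⟩
  obtain ⟨A0, rfl⟩ := exists_totAct Ω kk g maps holo one mul pd cc
  obtain ⟨A, M, rfl, rfl⟩ := exists_fibAct A0 H hcont hherm hflat
  have hpd : BasePD A.toBaseAct := base_pd_fib A M h hinv
  obtain ⟨F, hF, hFk, hF2⟩ := tr_index A M hpd
  obtain ⟨hcc, -⟩ := tr_cc_of_index A hpd hF hFk hF2
  have hp : IsQuot A.toTotAct p := ⟨surj, rel, fun x hx => by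
    obtain ⟨φ, h1, h2, h3, h4⟩ := chart x hx
    exact ⟨φ, ⟨h1, h3, h4⟩, h2⟩⟩
  exact nef_main A hp hcc h hinv

/-- quotients by groups preserving the product structure of the leaves -/
theorem nef_mon {D : Set (Fin n → ℂ)} (hD : IsOpen D) (hconn : IsConnected D)
    (hbdd : Bornology.IsBounded D) (g : Γ → (Fin n → ℂ) × (Fin kk → ℂ) → (Fin n → ℂ) × (Fin kk → ℂ))
    (maps : ∀ γ, MapsTo (g γ) (D ×ˢ univ) (D ×ˢ univ))
    (holo : ∀ γ, DifferentiableOn ℂ (g γ) (D ×ˢ univ))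
    (one : ∀ x ∈ D ×ˢ (univ : Set (Fin kk → ℂ)), g 1 x = x)
    (mul : ∀ γ δ, ∀ x ∈ D ×ˢ (univ : Set (Fin kk → ℂ)), g (γ * δ) x = g γ (g δ x))
    (pd : ∀ K ⊆ D ×ˢ (univ : Set (Fin kk → ℂ)), IsCompact K → {γ | (g γ '' K ∩ K).Nonempty}.Finite)
    (cc : ∃ K ⊆ D ×ˢ (univ : Set (Fin kk → ℂ)), IsCompact K ∧
      ∀ x ∈ D ×ˢ (univ : Set (Fin kk → ℂ)), ∃ γ, g γ x ∈ K)
    (h : KMet (D ×ˢ (univ : Set (Fin kk → ℂ))))
    (hinv : ∀ γ, ∀ x ∈ D ×ˢ (univ : Set (Fin kk → ℂ)), ∀ v w,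
      h.h (g γ x) (fderiv ℂ (g γ) x v) (fderiv ℂ (g γ) x w) = h.h x v w)
    (hperm : ∀ γ, ∃ σ : Equiv.Perm (Fin kk), ∀ b ∈ D, ∀ z z' : Fin kk → ℂ, ∀ i,
      z (σ i) = z' (σ i) → (g γ (b, z)).2 i = (g γ (b, z')).2 i)
    [IsManifold 𝓘(ℂ, (Fin n → ℂ) × (Fin kk → ℂ)) ω Y] {p : (Fin n → ℂ) × (Fin kk → ℂ) → Y}
    (surj : ∀ y, ∃ x ∈ D ×ˢ (univ : Set (Fin kk → ℂ)), p x = y)
    (rel : ∀ x ∈ D ×ˢ (univ : Set (Fin kk → ℂ)), ∀ x' ∈ D ×ˢ (univ : Set (Fin kk → ℂ)),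
      p x = p x' ↔ ∃ γ, g γ x = x')
    (chart : ∀ x ∈ D ×ˢ (univ : Set (Fin kk → ℂ)), ∃ φ ∈ Charts ((Fin n → ℂ) × (Fin kk → ℂ)) Y,
      x ∈ φ.target ∧ φ.target ⊆ D ×ˢ univ ∧ ∀ y ∈ φ.target, p y = φ.symm y) :
    CotangentNef ((Fin n → ℂ) × (Fin kk → ℂ)) Y := by
  classical
  obtain ⟨b0, hb0⟩ := hconn.nonempty
  obtain ⟨r, hr, hball⟩ := Metric.nhds_basis_closedBall.mem_iff.mp (hD.mem_nhds hb0)
  let Ω : Dom n := ⟨D, hD, hconn.isPreconnected, hbdd, b0, r / 2, r, by linarith, by linarith, hball⟩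
  obtain ⟨A0, rfl⟩ := exists_totAct Ω kk g maps holo one mul pd cc
  obtain ⟨A, rfl, H, hH, hdiag⟩ := exists_mon A0 hperm
  have hinv' : InvMet (resFib A H).toTotAct h := fun γ => hinv γ.1
  have hpd' : BasePD (resFib A H).toBaseAct := base_pd_diag _ hdiag h hinv'
  have hpd : BasePD A.toBaseAct := basePD_of_res A H hpd'
  obtain ⟨F, hF, hFk, hF2⟩ := tr_index_of_res A H (tr_index_diag _ hdiag hpd' h hinv')
  obtain ⟨hcc, -⟩ := tr_cc_of_index A hpd hF hFk hF2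
  have hp : IsQuot A.toTotAct p := ⟨surj, rel, fun x hx => by
    obtain ⟨φ, h1, h2, h3, h4⟩ := chart x hx
    exact ⟨φ, ⟨h1, h3, h4⟩, h2⟩⟩
  exact nef_main A hp hcc h hinv

end Pool.Agent.Nef6
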