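import Pool.Agent.H.MP_6a1d6a_ag.Main
import Pool.Agent.H.MP_e23cd6_ag.CB.Main

/-!
MP_6a1d6a_ag, module QC: the cotangent bundle of the quotient is nef if the group permutes blocks of coordinates of the
leaves, the Kaehler metric having bounded eccentricity on the blocks.
-/

set_option autoImplicit false

open Set Filter Topology Metric
open scoped ContDiff Manifold

namespace Pool.Agent.Nef6

open Pool.Agent.H.MP_e23cd6_ag.AB (Dom BaseAct KMet BasePD)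
open Pool.Agent.H.MP_e23cd6_ag.AK
open Pool.Agent.H.MP_e23cd6_ag.CB (PermBlk main_cb qct_of_metric)

variable {n kk r : ℕ} {Γ : Type} [Group Γ]
variable {Y : Type} [TopologicalSpace Y] [ChartedSpace ((Fin n → ℂ) × (Fin kk → ℂ)) Y]

/-- quotients by groups permuting blocks of coordinates of the leaves -/
theorem nef_qc {D : Set (Fin n → ℂ)} (hD : IsOpen D) (hconn : IsConnected D)
    (hbdd : Bornology.IsBounded D) (g : Γ → (Fin n → ℂ) × (Fin kk → ℂ) → (Fin n → ℂ) × (Fin kk → ℂ))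
    (maps : ∀ γ, MapsTo (g γ) (D ×ˢ univ) (D ×ˢ univ))
    (holo : ∀ γ, DifferentiableOn ℂ (g γ) (D ×ˢ univ))
    (one : ∀ x ∈ D ×ˢ (univ : Set (Fin kk → ℂ)), g 1 x = x)
    (mul : ∀ γ δ, ∀ x ∈ D ×ˢ (univ : Set (Fin kk → ℂ)), g (γ * δ) x = g γ (g δ x))
    (pd : ∀ K ⊆ D ×ˢ (univ : Set (Fin kk → ℂ)), IsCompact K → {γ | (g γ '' K ∩ K).Nonempty}.Finite)
    (cc : ∃ K ⊆ D ×ˢ (univ : Set (Fin kk → ℂ)), IsCompact K ∧
      ∀ x ∈ D ×ˢ (univ : Set (Fin kk → ℂ)), ∃ γ, g γ x ∈ K)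
    (h : KMet (D ×ˢ (univ : Set (Fin kk → ℂ))))
    (hinv : ∀ γ, ∀ x ∈ D ×ˢ (univ : Set (Fin kk → ℂ)), ∀ v w,
      h.h (g γ x) (fderiv ℂ (g γ) x v) (fderiv ℂ (g γ) x w) = h.h x v w)
    (blk : Fin kk → Fin r)
    (hperm : ∀ γ, ∃ σ : Equiv.Perm (Fin r), ∀ b ∈ D, ∀ z z' : Fin kk → ℂ, ∀ i,
      (∀ j, blk j = σ i → z j = z' j) → ∀ j, blk j = i → (g γ (b, z)).2 j = (g γ (b, z')).2 j)
    (hecc : ∀ K ⊆ D, IsCompact K → ∃ C : ℝ, ∀ b ∈ K, ∀ z : Fin kk → ℂ, ∀ i, ∀ v w : Fin kk → ℂ,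
      (∀ j, blk j ≠ i → v j = 0) → (∀ j, blk j ≠ i → w j = 0) →
      (h.h (b, z) (0, v) (0, v)).re * ‖w‖ ^ 2 ≤ C * ((h.h (b, z) (0, w) (0, w)).re * ‖v‖ ^ 2))
    [IsManifold 𝓘(ℂ, (Fin n → ℂ) × (Fin kk → ℂ)) ω Y] {p : (Fin n → ℂ) × (Fin kk → ℂ) → Y}
    (surj : ∀ y, ∃ x ∈ D ×ˢ (univ : Set (Fin kk → ℂ)), p x = y)
    (rel : ∀ x ∈ D ×ˢ (univ : Set (Fin kk → ℂ)), ∀ x' ∈ D ×ˢ (univ : Set (Fin kk → ℂ)),
      p x = p x' ↔ ∃ γ, g γ x = x')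
    (chart : ∀ x ∈ D ×ˢ (univ : Set (Fin kk → ℂ)), ∃ φ ∈ Charts ((Fin n → ℂ) × (Fin kk → ℂ)) Y,
      x ∈ φ.target ∧ φ.target ⊆ D ×ˢ univ ∧ ∀ y ∈ φ.target, p y = φ.symm y) :
    CotangentNef ((Fin n → ℂ) × (Fin kk → ℂ)) Y := by
  classical
  obtain ⟨b0, hb0⟩ := hconn.nonempty
  obtain ⟨s, hs, hball⟩ := Metric.nhds_basis_closedBall.mem_iff.mp (hD.mem_nhds hb0)
  let Ω : Dom n := ⟨D, hD, hconn.isPreconnected, hbdd, b0, s / 2, s, by linarith, by linarith, hball⟩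
  obtain ⟨A0, rfl⟩ := exists_totAct Ω kk g maps holo one mul pd cc
  have hp' : PermBlk A0 blk := hperm
  obtain ⟨A, rfl, -, hcc, -⟩ := main_cb A0 blk hp' (qct_of_metric A0 h hinv blk hp' hecc) h hinv
  have hp : IsQuot A.toTotAct p := ⟨surj, rel, fun x hx => by
    obtain ⟨φ, h1, h2, h3, h4⟩ := chart x hx
    exact ⟨φ, ⟨h1, h3, h4⟩, h2⟩⟩
  exact nef_main A hp hcc h hinv

end Pool.Agent.Nef6
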